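import Mathlib
set_option autoImplicit false
set_option linter.unusedSectionVars false

/-! Fourier transforms of bounded densities against positive definite weights. -/

namespace Pool.Agent.Q97.RS

open MeasureTheory Set Metric Complex Filter Topology
open scoped ENNReal NNReal RealInnerProductSpace ComplexConjugate

variable {V : Type*} [NormedAddCommGroup V] [InnerProductSpace ℝ V] [MeasurableSpace V]
  [BorelSpace V] [SecondCountableTopology V]

/-- the character `e^{-2πi⟨x,ξ⟩}` -/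
noncomputable def ch (x ξ : V) : ℂ := Complex.exp (-(2 * Real.pi * ⟪x, ξ⟫ : ℝ) * I)

/-- the Fourier transform of the measure `g dμ` -/
noncomputable def Fh (μ : Measure V) (g : V → ℂ) (ξ : V) : ℂ := ∫ x, ch x ξ * g x ∂μ

theorem ch_norm (x ξ : V) : ‖ch x ξ‖ = 1 := by
  unfold ch
  rw [show (-(2 * Real.pi * ⟪x, ξ⟫ : ℝ) : ℂ) * I = ((-(2 * Real.pi * ⟪x, ξ⟫) : ℝ) : ℂ) * I by
    push_cast; ring]
  exact Complex.norm_exp_ofReal_mul_I _

theorem ch_add (x ξ η : V) : ch x (ξ + η) = ch x ξ * ch x η := by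
  unfold ch
  rw [← Complex.exp_add, inner_add_right]
  congr 1
  push_cast
  ring

theorem ch_conj (x ξ : V) : conj (ch x ξ) = ch x (-ξ) := by
  unfold ch
  rw [← Complex.exp_conj, inner_neg_right]
  congr 1
  rw [map_mul, map_neg, Complex.conj_ofReal, Complex.conj_I]
  push_cast
  ring

theorem ch_swap (x ξ : V) : ch x ξ = ch ξ x := by
  unfold ch
  rw [real_inner_comm]

theorem ch_sub_left (x y ξ : V) : ch (x - y) ξ = ch x ξ * conj (ch y ξ) := by
  rw [ch_swap, sub_eq_add_neg, ch_add, ch_swap ξ x, ← ch_conj, ch_swap ξ y]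

theorem ch_sub_right (x ξ η : V) : ch x (ξ - η) = ch x ξ * conj (ch x η) := by
  rw [sub_eq_add_neg, ch_add, ← ch_conj]

theorem ch_cont : Continuous fun p : V × V => ch p.1 p.2 := by
  unfold ch
  fun_prop

theorem ch_cont' (ξ : V) : Continuous fun x : V => ch x ξ := by
  unfold ch
  fun_prop

theorem ch_cont'' (x : V) : Continuous fun ξ : V => ch x ξ := by
  unfold ch
  fun_prop

variable (μ ν : Measure V) [IsFiniteMeasure μ] [IsFiniteMeasure ν]

theorem Fh_int {g : V → ℂ} (hg : Measurable g) {M : ℝ} (hM : ∀ x, ‖g x‖ ≤ M) (ξ : V) :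
    Integrable (fun x => ch x ξ * g x) μ := by
  refine Integrable.of_bound ((ch_cont' ξ).measurable.mul hg).aestronglyMeasurable M
    (Eventually.of_forall fun x => ?_)
  rw [norm_mul, ch_norm, one_mul]
  exact hM x

theorem Fh_norm_le {g : V → ℂ} {M : ℝ} (hM : ∀ x, ‖g x‖ ≤ M) (ξ : V) :
    ‖Fh μ g ξ‖ ≤ M * μ.real univ := by
  refine norm_integral_le_of_norm_le_const (Eventually.of_forall fun x => ?_)
  rw [norm_mul, ch_norm, one_mul]
  exact hM x

theorem Fh_meas {g : V → ℂ} (hg : Measurable g) : StronglyMeasurable (Fh μ g) := by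
  unfold Fh
  refine StronglyMeasurable.integral_prod_right' (f := fun p : V × V => ch p.2 p.1 * g p.2) ?_
  exact ((ch_cont.measurable.comp measurable_swap).mul (hg.comp measurable_snd)).stronglyMeasurable

/-- the square of the modulus as a double integral -/
theorem Fh_sq {g : V → ℂ} (z : V) :
    ((‖Fh μ g z‖ ^ 2 : ℝ) : ℂ) =
      ∫ p : V × V, g p.1 * conj (g p.2) * ch (p.1 - p.2) z ∂(μ.prod μ) := by
  have h1 : ((‖Fh μ g z‖ ^ 2 : ℝ) : ℂ) = Fh μ g z * conj (Fh μ g z) := by
    rw [Complex.mul_conj, Complex.normSq_eq_norm_sq]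
  have h2 : conj (Fh μ g z) = ∫ y, conj (ch y z * g y) ∂μ := integral_conj.symm
  rw [h1, h2, Fh, ← integral_prod_mul]
  refine integral_congr_ae (Eventually.of_forall fun p => ?_)
  simp only [map_mul]
  rw [ch_sub_left]
  ring

/-- the averaged identity -/
theorem avg_sq {g : V → ℂ} (hg : Measurable g) {M : ℝ} (hM : ∀ x, ‖g x‖ ≤ M) (w : V) :
    ((∫ q : V × V, ‖Fh μ g (w + q.1 - q.2)‖ ^ 2 ∂(ν.prod ν) : ℝ) : ℂ) =
      ∫ p : V × V, g p.1 * conj (g p.2) * ch (p.1 - p.2) w *
        ((‖Fh ν (fun _ => 1) (p.1 - p.2)‖ ^ 2 : ℝ) : ℂ) ∂(μ.prod μ) := by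
  have hM0 : 0 ≤ M := (norm_nonneg _).trans (hM 0)
  rw [← integral_complex_ofReal]
  have e1 : ∀ q : V × V, ((‖Fh μ g (w + q.1 - q.2)‖ ^ 2 : ℝ) : ℂ) =
      ∫ p : V × V, g p.1 * conj (g p.2) * ch (p.1 - p.2) (w + q.1 - q.2) ∂(μ.prod μ) :=
    fun q => Fh_sq μ _
  simp_rw [e1]
  rw [integral_integral_swap]
  · refine integral_congr_ae (Eventually.of_forall fun p => ?_)
    simp only
    have e2 : ∀ q : V × V, g p.1 * conj (g p.2) * ch (p.1 - p.2) (w + q.1 - q.2) =
        (g p.1 * conj (g p.2) * ch (p.1 - p.2) w) *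
          (ch (p.1 - p.2) q.1 * conj (ch (p.1 - p.2) q.2)) := by
      intro q
      rw [ch_sub_right, ch_add]
      ring
    simp_rw [e2]
    rw [integral_const_mul]
    congr 1
    rw [integral_prod_mul (fun ξ => ch (p.1 - p.2) ξ) (fun η => conj (ch (p.1 - p.2) η)),
      integral_conj]
    have e3 : ∫ x, ch (p.1 - p.2) x ∂ν = Fh ν (fun _ => 1) (p.1 - p.2) := by
      unfold Fh
      refine integral_congr_ae (Eventually.of_forall fun x => ?_)
      simp only
      rw [mul_one, ch_swap]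
    rw [e3, Complex.mul_conj, Complex.normSq_eq_norm_sq]
  · refine Integrable.of_bound ?_ (M * M) (Eventually.of_forall fun r => ?_)
    · refine Measurable.aestronglyMeasurable ?_
      have m1 : Measurable fun r : (V × V) × (V × V) => g r.2.1 * conj (g r.2.2) :=
        (hg.comp (measurable_fst.comp measurable_snd)).mul
          (Complex.continuous_conj.measurable.comp (hg.comp (measurable_snd.comp measurable_snd)))
      have m2 : Measurable fun r : (V × V) × (V × V) =>
          ch (r.2.1 - r.2.2) (w + r.1.1 - r.1.2) := by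
        have : Continuous fun r : (V × V) × (V × V) =>
          ch (r.2.1 - r.2.2) (w + r.1.1 - r.1.2) := by
          unfold ch
          fun_prop
        exact this.measurable
      exact m1.mul m2
    · simp only [Function.uncurry]
      rw [norm_mul, norm_mul, ch_norm, mul_one, RCLike.norm_conj]
      exact mul_le_mul (hM _) (hM _) (norm_nonneg _) hM0

/-- **The positivity principle.** -/
theorem avg_le {g : V → ℂ} (hg : Measurable g) {M : ℝ} (hM : ∀ x, ‖g x‖ ≤ M) (w : V) :
    ∫ q : V × V, ‖Fh μ g (w + q.1 - q.2)‖ ^ 2 ∂(ν.prod ν) ≤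
      M ^ 2 * ∫ q : V × V, ‖Fh μ (fun _ => 1) (q.1 - q.2)‖ ^ 2 ∂(ν.prod ν) := by
  have hM0 : 0 ≤ M := (norm_nonneg _).trans (hM 0)
  have h1 := avg_sq μ ν hg hM w
  have h2 := avg_sq μ ν (g := fun _ => (1 : ℂ)) measurable_const (M := 1) (by simp) 0
  have h3 : ∫ q : V × V, ‖Fh μ (fun _ => 1) (q.1 - q.2)‖ ^ 2 ∂(ν.prod ν) =
      ∫ p : V × V, ‖Fh ν (fun _ => 1) (p.1 - p.2)‖ ^ 2 ∂(μ.prod μ) := by
    have e0 : ∀ x : V, ch x (0 : V) = 1 := by
      intro x
      unfold ch
      simp
    simp only [e0, zero_add, map_one, one_mul, mul_one] at h2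
    rw [integral_complex_ofReal] at h2
    exact_mod_cast h2
  have h4 : ‖((∫ q : V × V, ‖Fh μ g (w + q.1 - q.2)‖ ^ 2 ∂(ν.prod ν) : ℝ) : ℂ)‖ ≤
      ∫ p : V × V, M ^ 2 * ‖Fh ν (fun _ => 1) (p.1 - p.2)‖ ^ 2 ∂(μ.prod μ) := by
    rw [h1]
    refine norm_integral_le_of_norm_le ?_ (Eventually.of_forall fun p => ?_)
    · refine Integrable.const_mul ?_ _
      have hm : StronglyMeasurable fun p : V × V => ‖Fh ν (fun _ => 1) (p.1 - p.2)‖ ^ 2 :=
        (((Fh_meas ν (g := fun _ => (1 : ℂ)) measurable_const).comp_measurable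
          (measurable_fst.sub measurable_snd)).norm).pow 2
      refine Integrable.of_bound hm.aestronglyMeasurable ((1 * ν.real univ) ^ 2)
        (Eventually.of_forall fun p => ?_)
      rw [Real.norm_eq_abs, abs_of_nonneg (by positivity)]
      exact pow_le_pow_left₀ (norm_nonneg _) (Fh_norm_le ν (M := 1) (by simp) _) 2
    · rw [norm_mul, norm_mul, norm_mul, ch_norm, mul_one, RCLike.norm_conj, Complex.norm_real,
        Real.norm_eq_abs, abs_of_nonneg (by positivity : (0 : ℝ) ≤ ‖Fh ν (fun _ => 1) (p.1 - p.2)‖ ^ 2),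
        sq M]
      gcongr
      · exact hM _
      · exact hM _
  rw [Complex.norm_real, Real.norm_eq_abs] at h4
  rw [h3, ← integral_const_mul]
  exact (le_abs_self _).trans h4

end Pool.Agent.Q97.RS
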