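import Mathlib
set_option autoImplicit false
set_option linter.unusedSectionVars false

/-! The diagonal Hardy-Littlewood-Sobolev inequality for kernels of weak type. -/

namespace Pool.Agent.Q97.RS

open MeasureTheory Set Metric Filter Topology
open scoped ENNReal NNReal

variable {V : Type*} [MeasurableSpace V] (μ : Measure V) [SFinite μ]

/-- the kernel `k` is of weak type with exponent `β` -/
def Bath (k : V → V → ℝ≥0∞) (β : ℝ) (K : ℝ≥0∞) : Prop :=
  ∀ (E : Set V), MeasurableSet E → ∀ y : V, ∫⁻ x in E, k x y ∂μ ≤ K * (μ E) ^ β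

variable {μ}

/-- Chebyshev -/
theorem cheb {r : ℝ} (hr : 0 < r) {Φ : V → ℝ≥0} (hΦ : Measurable Φ) {s : ℝ} (hs : 0 < s) :
    μ {a : V | s.toNNReal ≤ Φ a} ≤ (∫⁻ x, (Φ x : ℝ≥0∞) ^ r ∂μ) * ENNReal.ofReal (s ^ (-r)) := by
  have hs0 : ENNReal.ofReal (s ^ r) ≠ 0 := by
    rw [Ne, ENNReal.ofReal_eq_zero, not_le]
    positivity
  have h3 : ENNReal.ofReal (s ^ r) * μ {a : V | ENNReal.ofReal (s ^ r) ≤
      (Φ a : ℝ≥0∞) ^ r} ≤ ∫⁻ x, (Φ x : ℝ≥0∞) ^ r ∂μ :=
    mul_meas_ge_le_lintegral₀ (hΦ.coe_nnreal_ennreal.pow_const r).aemeasurable _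
  have h4 : {a : V | s.toNNReal ≤ Φ a} ⊆ {a : V | ENNReal.ofReal (s ^ r) ≤
      (Φ a : ℝ≥0∞) ^ r} := by
    intro a ha
    simp only [mem_ofPred_eq] at ha ⊢
    rw [← ENNReal.ofReal_rpow_of_pos hs]
    exact ENNReal.rpow_le_rpow (ENNReal.coe_le_coe.2 ha) hr.le
  have h5 : ENNReal.ofReal (s ^ (-r)) = (ENNReal.ofReal (s ^ r))⁻¹ := by
    rw [← ENNReal.ofReal_inv_of_pos (by positivity), Real.rpow_neg hs.le]
  rw [h5, ← div_eq_mul_inv, ENNReal.le_div_iff_mul_le (Or.inl hs0)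
    (Or.inl ENNReal.ofReal_ne_top), mul_comm]
  exact (mul_le_mul_right (measure_mono h4) _).trans h3

/-- the potential of a truncated function -/
theorem pot_gen {β : ℝ} (hβ : 0 < β) (hβ1 : β < 1) {k : V → V → ℝ≥0∞}
    (hk : Measurable (Function.uncurry k)) {K : ℝ≥0∞} (hB : Bath μ k β K)
    {Φ : V → ℝ≥0} (hΦ : Measurable Φ) (y : V) (t : ℝ≥0) :
    ∫⁻ x, k x y * (min (Φ x) t : ℝ≥0) ∂μ ≤
      ENNReal.ofReal ((1 + β) / (1 - β)) * (K * (∫⁻ x, (Φ x : ℝ≥0∞) ^ (2 / (1 + β)) ∂μ) ^ β) *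
        (t : ℝ≥0∞) ^ ((1 - β) / (1 + β)) := by
  set r : ℝ := 2 / (1 + β) with hr
  have hr0 : 0 < r := by positivity
  have hrβ : r * β = 2 * β / (1 + β) := by rw [hr]; ring
  have h1β : 1 - r * β = (1 - β) / (1 + β) := by
    rw [hrβ]
    field_simp
    ring
  have hpos : 0 < (1 - β) / (1 + β) := div_pos (by linarith) (by linarith)
  set N : ℝ≥0∞ := ∫⁻ x, (Φ x : ℝ≥0∞) ^ r ∂μ with hN
  set ν : Measure V := μ.withDensity (fun x => k x y) with hν
  have hkm : Measurable fun x : V => k x y := hk.comp (measurable_id.prodMk measurable_const)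
  have hmin : Measurable fun x : V => ((min (Φ x) t : ℝ≥0) : ℝ) :=
    (hΦ.min measurable_const).coe_nnreal_real
  have e1 : ∫⁻ x, k x y * (min (Φ x) t : ℝ≥0) ∂μ =
      ∫⁻ x, ENNReal.ofReal ((min (Φ x) t : ℝ≥0) : ℝ) ∂ν := by
    rw [hν, lintegral_withDensity_eq_lintegral_mul _ hkm hmin.ennreal_ofReal]
    refine lintegral_congr fun x => ?_
    simp only [Pi.mul_apply]
    rw [ENNReal.ofReal_coe_nnreal]
  rw [e1, lintegral_eq_lintegral_meas_lt ν (Eventually.of_forall fun x => NNReal.coe_nonneg _)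
    hmin.aemeasurable]
  have e2 : ∀ s ∈ Ioi (0 : ℝ), ν {a : V | s < ((min (Φ a) t : ℝ≥0) : ℝ)} ≤
      (Ioc (0 : ℝ) t).indicator (fun s => K * (N ^ β *
        ENNReal.ofReal (s ^ (-(r * β))))) s := by
    intro s hs
    rw [mem_Ioi] at hs
    by_cases hst : s ≤ t
    · rw [indicator_of_mem (show s ∈ Ioc (0 : ℝ) t from ⟨hs, hst⟩)]
      have hsub : {a : V | s < ((min (Φ a) t : ℝ≥0) : ℝ)} ⊆ {a : V | s.toNNReal ≤ Φ a} := by
        intro a ha
        simp only [mem_ofPred_eq] at ha ⊢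
        rw [NNReal.coe_min] at ha
        have := (lt_min_iff.1 ha).1
        exact Real.toNNReal_le_iff_le_coe.2 this.le
      have hEm : MeasurableSet {a : V | s.toNNReal ≤ Φ a} := measurableSet_le measurable_const hΦ
      refine (measure_mono hsub).trans ?_
      rw [hν, withDensity_apply _ hEm]
      refine (hB _ hEm y).trans ?_
      refine mul_le_mul_right ?_ _
      refine (ENNReal.rpow_le_rpow (cheb hr0 hΦ hs) hβ.le).trans (le_of_eq ?_)
      rw [ENNReal.mul_rpow_of_nonneg _ _ hβ.le, ENNReal.ofReal_rpow_of_pos (by positivity),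
        ← Real.rpow_mul hs.le, neg_mul]
    · have : {a : V | s < ((min (Φ a) t : ℝ≥0) : ℝ)} = ∅ := by
        ext a
        simp only [mem_ofPred_eq, mem_empty_iff_false, iff_false, not_lt]
        rw [NNReal.coe_min]
        exact (min_le_right _ _).trans (not_le.1 hst).le
      rw [this, measure_empty]
      exact zero_le
  refine (setLIntegral_mono' measurableSet_Ioi e2).trans ?_
  have e3 : ∫⁻ s in Ioi (0 : ℝ), (Ioc (0 : ℝ) t).indicator (fun s => K * (N ^ β *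
        ENNReal.ofReal (s ^ (-(r * β))))) s =
      K * (N ^ β * ∫⁻ s in Ioc (0 : ℝ) t, ENNReal.ofReal (s ^ (-(r * β)))) := by
    rw [setLIntegral_indicator measurableSet_Ioc, inter_eq_left.2 Ioc_subset_Ioi_self,
      lintegral_const_mul _ (by fun_prop), lintegral_const_mul _ (by fun_prop)]
  rw [e3]
  have e4 : ∫⁻ s in Ioc (0 : ℝ) t, ENNReal.ofReal (s ^ (-(r * β))) =
      ENNReal.ofReal ((1 + β) / (1 - β)) * (t : ℝ≥0∞) ^ ((1 - β) / (1 + β)) := by
    have hint : IntegrableOn (fun s : ℝ => s ^ (-(r * β))) (Ioc (0 : ℝ) t) := by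
      have := intervalIntegral.intervalIntegrable_rpow' (a := 0) (b := (t : ℝ))
        (r := -(r * β)) (by linarith)
      rwa [intervalIntegrable_iff_integrableOn_Ioc_of_le (NNReal.coe_nonneg t)] at this
    rw [← ofReal_integral_eq_lintegral_ofReal hint ((ae_restrict_iff' measurableSet_Ioc).2
      (Eventually.of_forall fun s hs => Real.rpow_nonneg hs.1.le _)),
      ← intervalIntegral.integral_of_le (NNReal.coe_nonneg t), integral_rpow (Or.inl (by linarith)),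
      Real.zero_rpow (by linarith), sub_zero]
    have h6 : -(r * β) + 1 = (1 - β) / (1 + β) := by rw [← h1β]; ring
    rw [h6, ← ENNReal.ofReal_coe_nnreal, ENNReal.ofReal_rpow_of_nonneg (NNReal.coe_nonneg t) hpos.le,
      ← ENNReal.ofReal_mul (div_nonneg (by linarith) (by linarith))]
    congr 1
    rw [div_eq_mul_inv, inv_div, mul_comm]
  rw [e4]
  refine le_of_eq ?_
  ring

/-- **Diagonal Hardy-Littlewood-Sobolev inequality for kernels of weak type.** -/
theorem hls_gen {β : ℝ} (hβ : 0 < β) (hβ1 : β < 1) {k : V → V → ℝ≥0∞}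
    (hk : Measurable (Function.uncurry k)) (hsym : ∀ x y, k x y = k y x) {K : ℝ≥0∞}
    (hB : Bath μ k β K) {Φ : V → ℝ≥0} (hΦ : Measurable Φ) :
    ∫⁻ q : V × V, k q.1 q.2 * (Φ q.1 * Φ q.2) ∂(μ.prod μ) ≤
      ENNReal.ofReal (2 * ((1 + β) / (1 - β))) * K *
        (∫⁻ x, (Φ x : ℝ≥0∞) ^ (2 / (1 + β)) ∂μ) ^ (1 + β) := by
  set r : ℝ := 2 / (1 + β) with hr
  have hr0 : 0 < r := by positivity
  have hpos : 0 < (1 - β) / (1 + β) := div_pos (by linarith) (by linarith)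
  set c : ℝ≥0∞ := ENNReal.ofReal ((1 + β) / (1 - β)) with hc
  set N : ℝ≥0∞ := ∫⁻ x, (Φ x : ℝ≥0∞) ^ r ∂μ with hN
  have hΦe : Measurable fun x => (Φ x : ℝ≥0∞) := hΦ.coe_nnreal_ennreal
  have hk2 : Measurable fun q : V × V => k q.1 q.2 := hk
  have hm1 : Measurable fun q : V × V => ((min (Φ q.1) (Φ q.2) : ℝ≥0) : ℝ≥0∞) :=
    ((hΦ.comp measurable_fst).min (hΦ.comp measurable_snd)).coe_nnreal_ennreal
  have mA : Measurable fun q : V × V =>
      k q.1 q.2 * ((min (Φ q.1) (Φ q.2) : ℝ≥0) : ℝ≥0∞) * Φ q.2 :=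
    (hk2.mul hm1).mul (hΦe.comp measurable_snd)
  have mB : Measurable fun q : V × V =>
      k q.1 q.2 * ((min (Φ q.1) (Φ q.2) : ℝ≥0) : ℝ≥0∞) * Φ q.1 :=
    (hk2.mul hm1).mul (hΦe.comp measurable_fst)
  have hpt : ∀ q : V × V, k q.1 q.2 * ((Φ q.1 : ℝ≥0∞) * Φ q.2) ≤
      k q.1 q.2 * ((min (Φ q.1) (Φ q.2) : ℝ≥0) : ℝ≥0∞) * Φ q.2 +
      k q.1 q.2 * ((min (Φ q.1) (Φ q.2) : ℝ≥0) : ℝ≥0∞) * Φ q.1 := by
    intro q
    rcases le_total (Φ q.1) (Φ q.2) with h | h
    · rw [min_eq_left h, ← mul_assoc]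
      exact le_self_add
    · rw [min_eq_right h, mul_comm (Φ q.1 : ℝ≥0∞), ← mul_assoc]
      exact le_add_self
  have hone : ∀ y : V, ∫⁻ x, k x y * ((min (Φ x) (Φ y) : ℝ≥0) : ℝ≥0∞) * Φ y ∂μ ≤
      c * (K * N ^ β) * (Φ y : ℝ≥0∞) ^ r := by
    intro y
    have mm : Measurable fun x : V => k x y * ((min (Φ x) (Φ y) : ℝ≥0) : ℝ≥0∞) :=
      (hk.comp (measurable_id.prodMk measurable_const)).mul
        (hΦ.min measurable_const).coe_nnreal_ennreal
    rw [lintegral_mul_const _ mm]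
    refine (mul_le_mul_left (pot_gen hβ hβ1 hk hB hΦ y (Φ y)) _).trans (le_of_eq ?_)
    rw [mul_assoc]
    congr 1
    conv_lhs => rw [← ENNReal.rpow_one (Φ y : ℝ≥0∞), ← ENNReal.rpow_mul]
    rw [← ENNReal.rpow_add_of_nonneg _ _ (by rw [one_mul]; exact hpos.le) zero_le_one]
    congr 1
    rw [hr]
    field_simp
    ring
  have htot : ∫⁻ y, ∫⁻ x, k x y * ((min (Φ x) (Φ y) : ℝ≥0) : ℝ≥0∞) * Φ y ∂μ ∂μ ≤
      c * K * N ^ (1 + β) := by
    refine (lintegral_mono hone).trans (le_of_eq ?_)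
    rw [lintegral_const_mul _ (hΦe.pow_const r), mul_assoc, mul_assoc, mul_assoc]
    congr 2
    conv_lhs => rw [← hN, ← ENNReal.rpow_one N, ← ENNReal.rpow_mul, one_mul]
    rw [← ENNReal.rpow_add_of_nonneg _ _ hβ.le zero_le_one]
    congr 1
    ring
  calc ∫⁻ q : V × V, k q.1 q.2 * (Φ q.1 * Φ q.2) ∂(μ.prod μ)
      ≤ ∫⁻ q : V × V, (k q.1 q.2 * ((min (Φ q.1) (Φ q.2) : ℝ≥0) : ℝ≥0∞) * Φ q.2 +
          k q.1 q.2 * ((min (Φ q.1) (Φ q.2) : ℝ≥0) : ℝ≥0∞) * Φ q.1)
          ∂(μ.prod μ) := lintegral_mono hpt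
    _ = (∫⁻ q : V × V, k q.1 q.2 * ((min (Φ q.1) (Φ q.2) : ℝ≥0) : ℝ≥0∞) * Φ q.2
          ∂(μ.prod μ)) +
        ∫⁻ q : V × V, k q.1 q.2 * ((min (Φ q.1) (Φ q.2) : ℝ≥0) : ℝ≥0∞) * Φ q.1
          ∂(μ.prod μ) := by
        rw [lintegral_add_left mA]
    _ ≤ c * K * N ^ (1 + β) + c * K * N ^ (1 + β) := by
        refine add_le_add ?_ ?_
        · rw [lintegral_prod_symm' _ mA]
          exact htot
        · rw [lintegral_prod _ mB.aemeasurable]
          refine le_trans (le_of_eq ?_) htot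
          refine lintegral_congr fun y => lintegral_congr fun x => ?_
          simp only
          rw [hsym, min_comm]
    _ = _ := by
        rw [hc, ENNReal.ofReal_mul zero_le_two, ENNReal.ofReal_ofNat]
        ring

/-- functions of weak type: the integral of the square over a set -/
theorem weak_sq {q : ℝ} (hq : 2 < q) {F : V → ℂ} (hF : Measurable F) {L : ℝ} (hL : 0 < L)
    (hw : ∀ s : ℝ, 0 < s → μ {x | s < ‖F x‖} ≤ ENNReal.ofReal ((L / s) ^ q))
    {E : Set V} :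
    ∫⁻ x in E, ‖F x‖ₑ ^ 2 ∂μ ≤ ENNReal.ofReal (q / (q - 2) * L ^ 2) * (μ E) ^ (1 - 2 / q) := by
  have hq0 : 0 < q := by linarith
  have hexp : 0 < 1 - 2 / q := by
    rw [sub_pos, div_lt_one hq0]
    exact hq
  rcases eq_or_ne (μ E) ∞ with hE | hE
  · rw [hE, ENNReal.top_rpow_of_pos hexp, ENNReal.mul_top]
    · exact le_top
    · rw [Ne, ENNReal.ofReal_eq_zero, not_le]
      have : 0 < q - 2 := by linarith
      positivity
  rcases eq_or_ne (μ E) 0 with hE0 | hE0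
  · rw [Measure.restrict_eq_zero.2 hE0, lintegral_zero_measure]
    exact zero_le
  set m : ℝ := (μ E).toReal with hm
  have hmpos : 0 < m := ENNReal.toReal_pos hE0 hE
  have hme : μ E = ENNReal.ofReal m := (ENNReal.ofReal_toReal hE).symm
  set T : ℝ := L * m ^ (-(1 / q)) with hT
  have hTpos : 0 < T := by positivity
  have e0 : ∫⁻ x in E, ‖F x‖ₑ ^ 2 ∂μ = ∫⁻ x in E, ENNReal.ofReal (‖F x‖ ^ (2 : ℝ)) ∂μ := by
    refine lintegral_congr fun x => ?_
    rw [← ofReal_norm, ← ENNReal.ofReal_pow (norm_nonneg _)]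
    congr 1
    exact_mod_cast rfl
  rw [e0, lintegral_rpow_eq_lintegral_meas_lt_mul _ (Eventually.of_forall fun x => norm_nonneg _)
    hF.norm.aemeasurable (by norm_num : (0 : ℝ) < 2)]
  have hsplit : Ioi (0 : ℝ) = Ioc 0 T ∪ Ioi T := (Ioc_union_Ioi_eq_Ioi hTpos.le).symm
  rw [hsplit, lintegral_union measurableSet_Ioi (Set.disjoint_left.2 fun x hx hx2 =>
    absurd hx.2 (not_le.2 hx2))]
  have b1 : ∫⁻ t in Ioc 0 T, (μ.restrict E) {a | t < ‖F a‖} * ENNReal.ofReal (t ^ ((2 : ℝ) - 1)) ≤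
      ENNReal.ofReal (m * (T ^ 2 / 2)) := by
    have h2 : ∀ t ∈ Ioc 0 T, (μ.restrict E) {a | t < ‖F a‖} * ENNReal.ofReal (t ^ ((2 : ℝ) - 1)) ≤
        ENNReal.ofReal (m * t) := by
      intro t ht
      rw [ENNReal.ofReal_mul hmpos.le, ← hme]
      refine mul_le_mul' ?_ (le_of_eq ?_)
      · calc (μ.restrict E) {a | t < ‖F a‖} ≤ (μ.restrict E) univ := measure_mono (subset_univ _)
          _ = μ E := by simp
      · norm_num
    refine (setLIntegral_mono' measurableSet_Ioc h2).trans (le_of_eq ?_)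
    have hint : IntegrableOn (fun s : ℝ => m * s) (Ioc (0 : ℝ) T) :=
      (continuous_const.mul continuous_id).integrableOn_Ioc
    rw [← ofReal_integral_eq_lintegral_ofReal hint ((ae_restrict_iff' measurableSet_Ioc).2
      (Eventually.of_forall fun s hs => mul_nonneg hmpos.le hs.1.le)),
      integral_const_mul, ← intervalIntegral.integral_of_le hTpos.le, integral_id]
    congr 1
    ring
  have b2 : ∫⁻ t in Ioi T, (μ.restrict E) {a | t < ‖F a‖} * ENNReal.ofReal (t ^ ((2 : ℝ) - 1)) ≤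
      ENNReal.ofReal (L ^ q * (T ^ (2 - q) / (q - 2))) := by
    have h2 : ∀ t ∈ Ioi T, (μ.restrict E) {a | t < ‖F a‖} * ENNReal.ofReal (t ^ ((2 : ℝ) - 1)) ≤
        ENNReal.ofReal (L ^ q * t ^ (1 - q)) := by
      intro t ht
      have ht0 : 0 < t := hTpos.trans ht
      calc (μ.restrict E) {a | t < ‖F a‖} * ENNReal.ofReal (t ^ ((2 : ℝ) - 1))
          ≤ ENNReal.ofReal ((L / t) ^ q) * ENNReal.ofReal (t ^ ((2 : ℝ) - 1)) :=
            mul_le_mul_left ((Measure.restrict_apply_le _ _).trans (hw t ht0)) _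
        _ = _ := by
          rw [← ENNReal.ofReal_mul (by positivity)]
          congr 1
          rw [Real.div_rpow hL.le ht0.le, div_mul_eq_mul_div, mul_div_assoc,
            ← Real.rpow_sub ht0]
          congr 2
          ring
    refine (setLIntegral_mono' measurableSet_Ioi h2).trans (le_of_eq ?_)
    have hint : IntegrableOn (fun s : ℝ => L ^ q * s ^ (1 - q)) (Ioi T) :=
      (integrableOn_Ioi_rpow_of_lt (by linarith) hTpos).const_mul _
    rw [← ofReal_integral_eq_lintegral_ofReal hint ((ae_restrict_iff' measurableSet_Ioi).2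
      (Eventually.of_forall fun s hs => mul_nonneg (by positivity)
        (Real.rpow_nonneg (hTpos.trans hs).le _))),
      integral_const_mul, integral_Ioi_rpow_of_lt (by linarith) hTpos]
    congr 2
    rw [neg_div, ← div_neg]
    congr 1
    · congr 1
      ring
    · ring
  refine (mul_le_mul_right (add_le_add b1 b2) _).trans (le_of_eq ?_)
  have h2q : 0 < q - 2 := by linarith
  rw [← ENNReal.ofReal_add (by positivity) (by positivity), ← ENNReal.ofReal_mul (by norm_num),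
    hme, ENNReal.ofReal_rpow_of_pos hmpos, ← ENNReal.ofReal_mul (by positivity)]
  congr 1
  have t1 : T ^ 2 = L ^ 2 * m ^ (-(2 / q)) := by
    rw [hT, mul_pow, ← Real.rpow_natCast (m ^ (-(1 / q))) 2, ← Real.rpow_mul hmpos.le]
    congr 2
    push_cast
    ring
  have t2 : T ^ (2 - q) = L ^ (2 - q) * m ^ (1 - 2 / q) := by
    rw [hT, Real.mul_rpow hL.le (by positivity), ← Real.rpow_mul hmpos.le]
    congr 2
    field_simp
    ring
  have t3 : L ^ q * L ^ (2 - q) = L ^ 2 := by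
    rw [← Real.rpow_add hL, show q + (2 - q) = (2 : ℝ) by ring]
    norm_num
  have t4 : m * m ^ (-(2 / q)) = m ^ (1 - 2 / q) := by
    conv_lhs => rw [← Real.rpow_one m, ← Real.rpow_mul hmpos.le, one_mul]
    rw [← Real.rpow_add hmpos]
    congr 1
  have t5 : m * (T ^ 2 / 2) = L ^ 2 * m ^ (1 - 2 / q) / 2 := by
    rw [t1, ← t4]; ring
  have t6 : L ^ q * (T ^ (2 - q) / (q - 2)) = L ^ 2 * m ^ (1 - 2 / q) / (q - 2) := by
    rw [t2, ← t3]; ring
  rw [t5, t6]
  field_simp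
  ring

end Pool.Agent.Q97.RS
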