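import Mathlib
import Pool.Agent.Q97.RS.KG
set_option autoImplicit false
set_option linter.unusedSectionVars false

/-! Consequences of a two-point inequality on a group. -/

namespace Pool.Agent.Q97.RS

open MeasureTheory Set Metric Filter Topology
open scoped ENNReal NNReal Pointwise

variable {G : Type*} [AddCommGroup G] [MeasurableSpace G] [MeasurableAdd₂ G] [MeasurableSub₂ G]
  [MeasurableNeg G]

/-- the two-point inequality with exponent `q` and constant `K` -/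
def TP (μ : Measure G) (q : ℝ) (F : G → ℂ) (K : ℝ≥0∞) : Prop :=
  ∀ (w : G) (Φ : G → ℝ≥0), Measurable Φ →
    ∫⁻ p : G × G, ‖F (w + p.1 - p.2)‖ₑ ^ 2 * (Φ p.1 * Φ p.2) ∂(μ.prod μ) ≤
      K * (∫⁻ x, (Φ x : ℝ≥0∞) ^ (q / (q - 1)) ∂μ) ^ (2 - 2 / q)

/-- the measure of the set of representations `w + ξ - η` of elements of `E` -/
noncomputable def repsG (μ : Measure G) (E : Set G) (w : G) : ℝ≥0∞ :=
  (μ.prod μ) {p : G × G | p.1 ∈ E ∧ p.2 ∈ E ∧ w + p.1 - p.2 ∈ E}

/-- the additive energy -/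
noncomputable def energyG (μ : Measure G) (E : Set G) : ℝ≥0∞ :=
  (μ.prod (μ.prod μ)) {p : G × G × G | p.1 ∈ E ∧ p.2.1 ∈ E ∧ p.2.2 ∈ E ∧ p.1 + p.2.1 - p.2.2 ∈ E}

theorem pow_indG {μ : Measure G} (S : Set G) (hS : MeasurableSet S) {p : ℝ} (hp : 0 < p) :
    ∫⁻ x, ((S.indicator (fun _ => (1 : ℝ≥0)) x : ℝ≥0) : ℝ≥0∞) ^ p ∂μ = μ S := by
  rw [← lintegral_indicator_one hS]
  refine lintegral_congr fun x => ?_
  by_cases hx : x ∈ S
  · simp [hx]
  · simp [hx, ENNReal.zero_rpow_of_pos hp]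

variable {μ : Measure G} [SFinite μ]

theorem TP.reps_le {q : ℝ} (hq : 1 < q) {F : G → ℂ} {K : ℝ≥0∞} (hT : TP μ q F K)
    {E : Set G} (hE : MeasurableSet E) {l : ℝ≥0∞} (hl : ∀ x ∈ E, l ≤ ‖F x‖ₑ) (w : G) :
    l ^ 2 * repsG μ E w ≤ K * (μ E) ^ (2 - 2 / q) := by
  have h1 := hT w (E.indicator fun _ => (1 : ℝ≥0)) (measurable_const.indicator hE)
  rw [pow_indG E hE (div_pos (by linarith) (by linarith))] at h1
  refine le_trans ?_ h1
  have hm : MeasurableSet {p : G × G | p.1 ∈ E ∧ p.2 ∈ E ∧ w + p.1 - p.2 ∈ E} :=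
    (measurable_fst hE).inter ((measurable_snd hE).inter
      (((measurable_const.add measurable_fst).sub measurable_snd) hE))
  unfold repsG
  rw [← lintegral_indicator_one hm, ← lintegral_const_mul _ (measurable_one.indicator hm)]
  refine lintegral_mono fun p => ?_
  simp only
  by_cases hp : p ∈ {p : G × G | p.1 ∈ E ∧ p.2 ∈ E ∧ w + p.1 - p.2 ∈ E}
  · obtain ⟨a, b, c⟩ := hp
    rw [indicator_of_mem (show p ∈ {p : G × G | p.1 ∈ E ∧ p.2 ∈ E ∧ w + p.1 - p.2 ∈ E} from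
      ⟨a, b, c⟩), indicator_of_mem a, indicator_of_mem b]
    simp only [Pi.one_apply, mul_one, ENNReal.coe_one]
    exact pow_le_pow_left₀ zero_le (hl _ c) 2
  · rw [indicator_of_notMem hp, mul_zero]
    exact zero_le

theorem TP.energy_le {q : ℝ} (hq : 1 < q) {F : G → ℂ} {K : ℝ≥0∞} (hT : TP μ q F K)
    {E : Set G} (hE : MeasurableSet E) {l : ℝ≥0∞} (hl : ∀ x ∈ E, l ≤ ‖F x‖ₑ) :
    l ^ 2 * energyG μ E ≤ K * (μ E) ^ (3 - 2 / q) := by
  have hms : MeasurableSet {p : G × G × G |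
      p.1 ∈ E ∧ p.2.1 ∈ E ∧ p.2.2 ∈ E ∧ p.1 + p.2.1 - p.2.2 ∈ E} := by
    refine (measurable_fst hE).inter ((measurable_snd.fst hE).inter
      ((measurable_snd.snd hE).inter ?_))
    exact ((measurable_fst.add measurable_snd.fst).sub measurable_snd.snd) hE
  have h1 : energyG μ E ≤ ∫⁻ w in E, repsG μ E w ∂μ := by
    unfold energyG
    rw [Measure.prod_apply hms, ← lintegral_indicator hE]
    refine lintegral_mono fun w => ?_
    by_cases hw : w ∈ E
    · rw [indicator_of_mem hw]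
      refine measure_mono fun q hq => ?_
      exact ⟨hq.2.1, hq.2.2.1, hq.2.2.2⟩
    · rw [indicator_of_notMem hw]
      refine le_of_eq ?_
      refine measure_mono_null (t := ∅) (fun q hq => ?_) measure_empty
      exact absurd hq.1 hw
  have hq2 : 0 ≤ 2 - 2 / q := by
    have : 2 / q ≤ 2 := by rw [div_le_iff₀ (by linarith)]; linarith
    linarith
  calc l ^ 2 * energyG μ E ≤ l ^ 2 * ∫⁻ w in E, repsG μ E w ∂μ := mul_le_mul_right h1 _
    _ ≤ ∫⁻ w in E, l ^ 2 * repsG μ E w ∂μ := lintegral_const_mul_le _ _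
    _ ≤ ∫⁻ _ in E, K * (μ E) ^ (2 - 2 / q) ∂μ := lintegral_mono fun w => hT.reps_le hq hE hl w
    _ = _ := by
      rw [setLIntegral_const, mul_assoc]
      congr 1
      conv_lhs => rw [← ENNReal.rpow_one (μ E), ← ENNReal.rpow_mul, one_mul]
      rw [← ENNReal.rpow_add_of_nonneg _ _ hq2 zero_le_one]
      congr 1
      ring

variable [μ.IsAddRightInvariant]

theorem TP.sumset {q : ℝ} (hq : 1 < q) {F : G → ℂ} {K : ℝ≥0∞} (hF : Measurable F)
    (hT : TP μ q F K) {E : Set G} (hE : MeasurableSet E) (B : Set G) :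
    μ B * ∫⁻ x in E, ‖F x‖ₑ ^ 2 ∂μ ≤ K * (μ (E + B)) ^ (2 - 2 / q) := by
  rcases E.eq_empty_or_nonempty with rfl | ⟨e0, he0⟩
  · simp
  have hq1 : 0 < q / (q - 1) := div_pos (by linarith) (by linarith)
  set S : Set G := toMeasurable μ (E + B) with hSdef
  have hS : MeasurableSet S := measurableSet_toMeasurable _ _
  have hsub : E + B ⊆ S := subset_toMeasurable _ _
  have hvS : μ S = μ (E + B) := measure_toMeasurable _
  set Φ : G → ℝ≥0 := S.indicator (fun _ => (1 : ℝ≥0)) with hΦ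
  have hΦm : Measurable Φ := measurable_const.indicator hS
  have hΦe : Measurable fun x => (Φ x : ℝ≥0∞) := hΦm.coe_nnreal_ennreal
  have h1 := hT e0 Φ hΦm
  rw [pow_indG S hS hq1, hvS] at h1
  refine le_trans ?_ h1
  have hF2 : Measurable fun v => ‖F v‖ₑ ^ 2 := hF.enorm.pow_const 2
  have mq : Measurable fun q : G × G => ‖F (e0 + q.1 - q.2)‖ₑ ^ 2 * ((Φ q.1 : ℝ≥0∞) * Φ q.2) :=
    (hF2.comp ((measurable_const.add measurable_fst).sub measurable_snd)).mul
      ((hΦe.comp measurable_fst).mul (hΦe.comp measurable_snd))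
  rw [lintegral_prod_symm' _ mq]
  have e1 : ∀ η : G, ∫⁻ ξ, ‖F (e0 + ξ - η)‖ₑ ^ 2 * ((Φ ξ : ℝ≥0∞) * Φ η) ∂μ =
      ∫⁻ v, ‖F v‖ₑ ^ 2 * ((Φ (v - (e0 - η)) : ℝ≥0∞) * Φ η) ∂μ := by
    intro η
    rw [← lintegral_add_right_eq_self
      (fun v => ‖F v‖ₑ ^ 2 * ((Φ (v - (e0 - η)) : ℝ≥0∞) * Φ η)) (e0 - η)]
    refine lintegral_congr fun ξ => ?_
    rw [add_sub_cancel_right, show ξ + (e0 - η) = e0 + ξ - η by abel]
  simp_rw [e1]
  have mr : Measurable fun r : G × G =>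
      ‖F r.2‖ₑ ^ 2 * ((Φ (r.2 - (e0 - r.1)) : ℝ≥0∞) * Φ r.1) :=
    (hF2.comp measurable_snd).mul ((hΦe.comp (measurable_snd.sub
      (measurable_const.sub measurable_fst))).mul (hΦe.comp measurable_fst))
  rw [lintegral_lintegral_swap mr.aemeasurable]
  have e2 : ∀ v, (E.indicator fun v => μ B * ‖F v‖ₑ ^ 2) v ≤
      ∫⁻ η, ‖F v‖ₑ ^ 2 * ((Φ (v - (e0 - η)) : ℝ≥0∞) * Φ η) ∂μ := by
    intro v
    by_cases hv : v ∈ E
    · rw [indicator_of_mem hv, mul_comm]
      have m1 : Measurable fun η : G => (Φ (v - (e0 - η)) : ℝ≥0∞) * Φ η :=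
        (hΦe.comp (measurable_const.sub (measurable_const.sub measurable_id))).mul hΦe
      rw [lintegral_const_mul _ m1]
      refine mul_le_mul_right ?_ _
      set R : Set G := {η | v - (e0 - η) ∈ S ∧ η ∈ S} with hR
      have hRm : MeasurableSet R :=
        ((measurable_const.sub (measurable_const.sub measurable_id)) hS).inter hS
      have h2 : ∫⁻ η, (Φ (v - (e0 - η)) : ℝ≥0∞) * Φ η ∂μ = μ R := by
        rw [← lintegral_indicator_one hRm]
        refine lintegral_congr fun η => ?_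
        by_cases ha : v - (e0 - η) ∈ S
        · by_cases hb : η ∈ S
          · have : η ∈ R := ⟨ha, hb⟩
            simp [hΦ, indicator_of_mem ha, indicator_of_mem hb, indicator_of_mem this]
          · have : η ∉ R := fun h => hb h.2
            simp [hΦ, indicator_of_notMem hb, indicator_of_notMem this]
        · have : η ∉ R := fun h => ha h.1
          simp [hΦ, indicator_of_notMem ha, indicator_of_notMem this]
      rw [h2]
      have h4 : B ⊆ (fun x => x + e0) ⁻¹' R := by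
        intro b hb
        refine ⟨hsub ?_, hsub ?_⟩
        · refine ⟨v, hv, b, hb, ?_⟩
          simp only
          abel
        · exact ⟨e0, he0, b, hb, add_comm _ _⟩
      calc μ B ≤ μ ((fun x => x + e0) ⁻¹' R) := measure_mono h4
        _ = μ R := measure_preimage_add_right μ e0 R
    · rw [indicator_of_notMem hv]
      exact zero_le
  refine le_trans (le_of_eq ?_) (lintegral_mono e2)
  rw [lintegral_indicator hE, lintegral_const_mul _ hF2]

/-- `E` has additive structure with constant `A` -/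
def StrSet (μ : Measure G) (A : ℝ≥0) (E : Set G) : Prop :=
  ∃ B : Set G, μ E ≤ A * μ B ∧ μ (E + B) ≤ A * μ E

/-- the estimate for a structured set -/
theorem TP.str {q : ℝ} (hq : 1 < q) {F : G → ℂ} {K : ℝ≥0∞} (hF : Measurable F)
    (hT : TP μ q F K) {A : ℝ≥0} {E : Set G} (hE : MeasurableSet E) (hfin : μ E ≠ ∞)
    (hS : StrSet μ A E) :
    ∫⁻ x in E, ‖F x‖ₑ ∂μ ≤ (K * (A : ℝ≥0∞) ^ (3 - 2 / q)) ^ (1 / 2 : ℝ) *
      μ E ^ (1 - 1 / q) := by
  rcases eq_or_ne (μ E) 0 with h0 | h0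
  · rw [Measure.restrict_eq_zero.2 h0, lintegral_zero_measure]
    exact zero_le
  have hq2 : 2 / q < 2 := by rw [div_lt_iff₀ (by linarith)]; linarith
  have hq3 : 0 < 2 - 2 / q := by linarith
  obtain ⟨B, hB1, hB2⟩ := hS
  set I : ℝ≥0∞ := ∫⁻ x in E, ‖F x‖ₑ ^ 2 ∂μ with hI
  have k1 := hT.sumset hq hF hE B
  rw [← hI] at k1
  have k2 : μ E * (μ E * I) ≤ μ E * (K * (A : ℝ≥0∞) ^ (3 - 2 / q) * μ E ^ (2 - 2 / q)) := by
    have : μ E * I ≤ K * (A : ℝ≥0∞) ^ (3 - 2 / q) * μ E ^ (2 - 2 / q) := by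
      calc μ E * I ≤ (A * μ B) * I := mul_le_mul_left hB1 _
        _ = A * (μ B * I) := mul_assoc _ _ _
        _ ≤ A * (K * (μ (E + B)) ^ (2 - 2 / q)) := mul_le_mul_right k1 _
        _ ≤ A * (K * (A * μ E) ^ (2 - 2 / q)) :=
          mul_le_mul_right (mul_le_mul_right (ENNReal.rpow_le_rpow hB2 hq3.le) _) _
        _ = _ := by
          rw [ENNReal.mul_rpow_of_nonneg _ _ hq3.le]
          have : (A : ℝ≥0∞) * A ^ (2 - 2 / q) = (A : ℝ≥0∞) ^ (3 - 2 / q) := by
            conv_lhs => rw [← ENNReal.rpow_one (A : ℝ≥0∞), ← ENNReal.rpow_mul, one_mul]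
            rw [← ENNReal.rpow_add_of_nonneg _ _ zero_le_one hq3.le]
            congr 1
            ring
          rw [← this]
          ring
    exact mul_le_mul_right this _
  -- Cauchy-Schwarz
  have hcs : ∫⁻ x in E, ‖F x‖ₑ ∂μ ≤ I ^ (1 / 2 : ℝ) * μ E ^ (1 / 2 : ℝ) := by
    have := ENNReal.lintegral_mul_le_Lp_mul_Lq (μ.restrict E)
      (Real.HolderConjugate.two_two) (f := fun x => ‖F x‖ₑ) (g := fun _ => 1)
      hF.enorm.aemeasurable aemeasurable_const
    simp only [Pi.mul_apply, mul_one, ENNReal.one_rpow, lintegral_const, one_mul,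
      Measure.restrict_apply_univ] at this
    simpa [hI] using this
  have k3 : μ E * I ≤ K * (A : ℝ≥0∞) ^ (3 - 2 / q) * μ E ^ (2 - 2 / q) :=
    (ENNReal.mul_le_mul_iff_right h0 hfin).1 k2
  calc ∫⁻ x in E, ‖F x‖ₑ ∂μ ≤ I ^ (1 / 2 : ℝ) * μ E ^ (1 / 2 : ℝ) := hcs
    _ = (μ E * I) ^ (1 / 2 : ℝ) := by
      rw [ENNReal.mul_rpow_of_nonneg _ _ (by norm_num), mul_comm]
    _ ≤ (K * (A : ℝ≥0∞) ^ (3 - 2 / q) * μ E ^ (2 - 2 / q)) ^ (1 / 2 : ℝ) :=
      ENNReal.rpow_le_rpow k3 (by norm_num)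
    _ = _ := by
      rw [ENNReal.mul_rpow_of_nonneg _ _ (by norm_num), ← ENNReal.rpow_mul]
      congr 2
      ring

/-- a scalar integral: two exponents -/
theorem two_exp {r a b : ℝ} (hr : 0 < r) (ha : 0 < a) (hra : r * a < 1) (hrb : 1 < r * b)
    {m : ℝ → ℝ≥0∞} {N : ℝ≥0∞} (hm : ∀ t : ℝ, 0 < t → m t ≤ N * ENNReal.ofReal (t ^ (-r)))
    (X Y : ℝ≥0∞) {T : ℝ} (hT : 0 < T) :
    ∫⁻ t in Ioi (0 : ℝ), min (X * m t ^ a) (Y * m t ^ b) ≤
      ENNReal.ofReal (1 / (1 - r * a)) * (X * N ^ a * ENNReal.ofReal (T ^ (1 - r * a))) +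
      ENNReal.ofReal (1 / (r * b - 1)) * (Y * N ^ b * ENNReal.ofReal (T ^ (1 - r * b))) := by
  have hb : 0 < b := by
    by_contra h
    push Not at h
    nlinarith
  have hsplit : Ioi (0 : ℝ) = Ioc 0 T ∪ Ioi T := (Ioc_union_Ioi_eq_Ioi hT.le).symm
  rw [hsplit, lintegral_union measurableSet_Ioi (Set.disjoint_left.2 fun x hx hx2 =>
    absurd hx.2 (not_le.2 hx2))]
  have key : ∀ c : ℝ, 0 < c → ∀ t : ℝ, 0 < t → m t ^ c ≤ N ^ c * ENNReal.ofReal (t ^ (-(r * c))) := by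
    intro c hc t ht
    refine (ENNReal.rpow_le_rpow (hm t ht) hc.le).trans (le_of_eq ?_)
    rw [ENNReal.mul_rpow_of_nonneg _ _ hc.le, ENNReal.ofReal_rpow_of_pos (by positivity),
      ← Real.rpow_mul ht.le, neg_mul]
  refine add_le_add ?_ ?_
  · have h2 : ∀ t ∈ Ioc (0 : ℝ) T, min (X * m t ^ a) (Y * m t ^ b) ≤
        X * N ^ a * ENNReal.ofReal (t ^ (-(r * a))) := by
      intro t ht
      refine (min_le_left _ _).trans ?_
      rw [mul_assoc]
      exact mul_le_mul_right (key a ha t ht.1) _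
    refine (setLIntegral_mono' measurableSet_Ioc h2).trans (le_of_eq ?_)
    rw [lintegral_const_mul _ (by fun_prop)]
    have hint : IntegrableOn (fun s : ℝ => s ^ (-(r * a))) (Ioc (0 : ℝ) T) := by
      have := intervalIntegral.intervalIntegrable_rpow' (a := 0) (b := T)
        (r := -(r * a)) (by linarith)
      rwa [intervalIntegrable_iff_integrableOn_Ioc_of_le hT.le] at this
    rw [← ofReal_integral_eq_lintegral_ofReal hint ((ae_restrict_iff' measurableSet_Ioc).2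
      (Eventually.of_forall fun s hs => Real.rpow_nonneg hs.1.le _)),
      ← intervalIntegral.integral_of_le hT.le,
      integral_rpow (Or.inl (by linarith)), Real.zero_rpow (by linarith), sub_zero]
    rw [show -(r * a) + 1 = 1 - r * a by ring]
    rw [show T ^ (1 - r * a) / (1 - r * a) = 1 / (1 - r * a) * T ^ (1 - r * a) by ring,
      ENNReal.ofReal_mul (by apply div_nonneg <;> linarith)]
    ring
  · have h2 : ∀ t ∈ Ioi T, min (X * m t ^ a) (Y * m t ^ b) ≤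
        Y * N ^ b * ENNReal.ofReal (t ^ (-(r * b))) := by
      intro t ht
      refine (min_le_right _ _).trans ?_
      rw [mul_assoc]
      exact mul_le_mul_right (key b hb t (hT.trans ht)) _
    refine (setLIntegral_mono' measurableSet_Ioi h2).trans (le_of_eq ?_)
    rw [lintegral_const_mul _ (by fun_prop)]
    have hint : IntegrableOn (fun s : ℝ => s ^ (-(r * b))) (Ioi T) :=
      integrableOn_Ioi_rpow_of_lt (by linarith) hT
    rw [← ofReal_integral_eq_lintegral_ofReal hint ((ae_restrict_iff' measurableSet_Ioi).2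
      (Eventually.of_forall fun s hs => Real.rpow_nonneg (hT.trans hs).le _)),
      integral_Ioi_rpow_of_lt (by linarith) hT]
    rw [show -T ^ (-(r * b) + 1) / (-(r * b) + 1) = 1 / (r * b - 1) * T ^ (1 - r * b) by
      rw [neg_div, ← div_neg, show -(r * b) + 1 = 1 - r * b by ring,
        show -(1 - r * b) = r * b - 1 by ring]
      ring,
      ENNReal.ofReal_mul (by apply div_nonneg <;> linarith)]
    ring

/-- the layer cake formula -/
theorem cake {F : G → ℂ} (hF : Measurable F) {Φ : G → ℝ≥0} (hΦ : Measurable Φ) :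
    ∫⁻ x, ‖F x‖ₑ * Φ x ∂μ =
      ∫⁻ t in Ioi (0 : ℝ), ∫⁻ x in {x | t < (Φ x : ℝ)}, ‖F x‖ₑ ∂μ := by
  have e1 : ∫⁻ x, ‖F x‖ₑ * Φ x ∂μ = ∫⁻ x, ENNReal.ofReal (Φ x : ℝ)
      ∂(μ.withDensity fun x => ‖F x‖ₑ) := by
    rw [lintegral_withDensity_eq_lintegral_mul _ hF.enorm hΦ.coe_nnreal_real.ennreal_ofReal]
    refine lintegral_congr fun x => ?_
    simp only [Pi.mul_apply]
    rw [ENNReal.ofReal_coe_nnreal]
  rw [e1, lintegral_eq_lintegral_meas_lt _ (Eventually.of_forall fun x => NNReal.coe_nonneg _)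
    hΦ.coe_nnreal_real.aemeasurable]
  refine lintegral_congr fun t => ?_
  rw [withDensity_apply _ (measurableSet_lt measurable_const hΦ.coe_nnreal_real)]

/-- **Interpolation of bounds on sets**: if the integral of `|F|` over each superlevel set of `Φ`
is at most `X |E|^a` and at most `Y |E|^b`, where `a < 1/r < b`, then the integral of `|F| Φ` is
bounded by the `L^r` norm of `Φ`. -/
theorem cake_bound {r a b : ℝ} (hr : 0 < r) (ha : 0 < a) (hra : r * a < 1) (hrb : 1 < r * b)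
    {F : G → ℂ} (hF : Measurable F) {Φ : G → ℝ≥0} (hΦ : Measurable Φ) (X Y : ℝ) (hX : 0 < X)
    (hY : 0 < Y)
    (h1 : ∀ t : ℝ, 0 < t → μ {x | t < (Φ x : ℝ)} ≠ ∞ → ∫⁻ x in {x | t < (Φ x : ℝ)}, ‖F x‖ₑ ∂μ ≤
      ENNReal.ofReal X * μ {x | t < (Φ x : ℝ)} ^ a)
    (h2 : ∀ t : ℝ, 0 < t → μ {x | t < (Φ x : ℝ)} ≠ ∞ → ∫⁻ x in {x | t < (Φ x : ℝ)}, ‖F x‖ₑ ∂μ ≤
      ENNReal.ofReal Y * μ {x | t < (Φ x : ℝ)} ^ b) :
    ∫⁻ x, ‖F x‖ₑ * Φ x ∂μ ≤ ENNReal.ofReal ((1 / (1 - r * a) + 1 / (r * b - 1)) *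
      (X ^ ((b - 1 / r) / (b - a)) * Y ^ ((1 / r - a) / (b - a)))) *
      (∫⁻ x, (Φ x : ℝ≥0∞) ^ r ∂μ) ^ (1 / r) := by
  have hab : a < b := by
    by_contra h
    push Not at h
    nlinarith
  have h1ra : 0 < 1 / (1 - r * a) := div_pos one_pos (by linarith)
  have h1rb : 0 < 1 / (r * b - 1) := div_pos one_pos (by linarith)
  have hcpos : 0 < (1 / (1 - r * a) + 1 / (r * b - 1)) *
      (X ^ ((b - 1 / r) / (b - a)) * Y ^ ((1 / r - a) / (b - a))) := by positivity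
  set N : ℝ≥0∞ := ∫⁻ x, (Φ x : ℝ≥0∞) ^ r ∂μ with hN
  rcases eq_or_ne N ∞ with hN1 | hN1
  · rw [hN1, ENNReal.top_rpow_of_pos (by positivity), ENNReal.mul_top]
    · exact le_top
    · rwa [Ne, ENNReal.ofReal_eq_zero, not_le]
  set m : ℝ → ℝ≥0∞ := fun t => μ {x | t < (Φ x : ℝ)} with hm
  have hcheb : ∀ t : ℝ, 0 < t → m t ≤ N * ENNReal.ofReal (t ^ (-r)) := by
    intro s hs
    refine le_trans (measure_mono fun x hx => ?_) (cheb hr hΦ hs)
    simp only [mem_ofPred_eq] at hx ⊢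
    exact Real.toNNReal_le_iff_le_coe.2 hx.le
  have hmfin : ∀ t : ℝ, 0 < t → m t ≠ ∞ := by
    intro t ht
    exact ne_top_of_le_ne_top (ENNReal.mul_ne_top hN1 ENNReal.ofReal_ne_top) (hcheb t ht)
  rw [cake hF hΦ]
  have hstep : ∫⁻ t in Ioi (0 : ℝ), ∫⁻ x in {x | t < (Φ x : ℝ)}, ‖F x‖ₑ ∂μ ≤
      ∫⁻ t in Ioi (0 : ℝ), min (ENNReal.ofReal X * m t ^ a) (ENNReal.ofReal Y * m t ^ b) :=
    setLIntegral_mono' measurableSet_Ioi fun t ht => le_min (h1 t ht (hmfin t ht))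
      (h2 t ht (hmfin t ht))
  refine hstep.trans ?_
  rcases eq_or_ne N 0 with hN0 | hN0
  · have hb : 0 < b := ha.trans hab
    have : ∫⁻ t in Ioi (0 : ℝ), min (ENNReal.ofReal X * m t ^ a) (ENNReal.ofReal Y * m t ^ b) ≤
        ∫⁻ t in Ioi (0 : ℝ), 0 := by
      refine setLIntegral_mono' measurableSet_Ioi fun t ht => ?_
      have h3 : m t = 0 := by
        have := hcheb t ht
        rw [hN0, zero_mul] at this
        exact nonpos_iff_eq_zero.1 this
      rw [h3, ENNReal.zero_rpow_of_pos ha, mul_zero]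
      exact min_le_left _ _
    refine this.trans ?_
    simp
  have hNpos : 0 < N.toReal := ENNReal.toReal_pos hN0 hN1
  set ν : ℝ := N.toReal with hν
  have hNν : N = ENNReal.ofReal ν := (ENNReal.ofReal_toReal hN1).symm
  have hba : 0 < b - a := by linarith
  set T : ℝ := (Y / X) ^ (1 / (r * (b - a))) * ν ^ (1 / r) with hT
  have hTpos : 0 < T := by positivity
  refine (two_exp hr ha hra hrb hcheb (ENNReal.ofReal X) (ENNReal.ofReal Y) hTpos).trans
    (le_of_eq ?_)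
  have hP : ∀ (Z c : ℝ), 0 < Z → 0 < c → ENNReal.ofReal Z * N ^ c * ENNReal.ofReal (T ^ (1 - r * c)) =
      ENNReal.ofReal (Z * (Y / X) ^ ((1 / r - c) / (b - a)) * ν ^ (1 / r)) := by
    intro Z c hZ hc
    rw [hNν, ENNReal.ofReal_rpow_of_pos hNpos, ← ENNReal.ofReal_mul hZ.le,
      ← ENNReal.ofReal_mul (by positivity)]
    congr 1
    rw [hT, Real.mul_rpow (by positivity) (by positivity), ← Real.rpow_mul (by positivity),
      ← Real.rpow_mul hNpos.le]
    have e1 : 1 / (r * (b - a)) * (1 - r * c) = (1 / r - c) / (b - a) := by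
      field_simp
    have e2 : ν ^ c * ν ^ (1 / r * (1 - r * c)) = ν ^ (1 / r) := by
      rw [← Real.rpow_add hNpos]
      congr 1
      field_simp
      ring
    rw [e1, ← e2]
    ring
  rw [hP X a hX ha, hP Y b hY (ha.trans hab), hNν, ENNReal.ofReal_rpow_of_pos hNpos,
    ← ENNReal.ofReal_mul h1ra.le, ← ENNReal.ofReal_mul h1rb.le,
    ← ENNReal.ofReal_add (by positivity) (by positivity), ← ENNReal.ofReal_mul hcpos.le]
  congr 1
  have f1 : X * (Y / X) ^ ((1 / r - a) / (b - a)) =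
      X ^ ((b - 1 / r) / (b - a)) * Y ^ ((1 / r - a) / (b - a)) := by
    rw [Real.div_rpow hY.le hX.le]
    have : X = X ^ ((b - 1 / r) / (b - a)) * X ^ ((1 / r - a) / (b - a)) := by
      rw [← Real.rpow_add hX, ← add_div]
      rw [show b - 1 / r + (1 / r - a) = b - a by ring, div_self hba.ne', Real.rpow_one]
    have hx : 0 < X ^ ((1 / r - a) / (b - a)) := by positivity
    have h6 : X / X ^ ((1 / r - a) / (b - a)) = X ^ ((b - 1 / r) / (b - a)) := by
      rw [div_eq_iff hx.ne']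
      exact this
    rw [← h6]
    ring
  have f2 : Y * (Y / X) ^ ((1 / r - b) / (b - a)) =
      X ^ ((b - 1 / r) / (b - a)) * Y ^ ((1 / r - a) / (b - a)) := by
    rw [Real.div_rpow hY.le hX.le]
    have e1 : Y ^ ((1 / r - a) / (b - a)) = Y * Y ^ ((1 / r - b) / (b - a)) := by
      conv_rhs => rw [← Real.rpow_one Y, ← Real.rpow_mul hY.le, one_mul]
      rw [← Real.rpow_add hY]
      congr 1
      field_simp
      ring
    have e2 : X ^ ((1 / r - b) / (b - a)) = (X ^ ((b - 1 / r) / (b - a)))⁻¹ := by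
      rw [← Real.rpow_neg hX.le]
      congr 1
      ring
    rw [e1, e2, div_inv_eq_mul]
    ring
  rw [f1, f2]
  ring

end Pool.Agent.Q97.RS
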