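import Mathlib
set_option autoImplicit false
set_option linter.unusedSectionVars false

/-! The kernel `|z|^{-(d-1)}`: bathtub estimate and the diagonal Hardy-Littlewood-Sobolev
inequality. -/

namespace Pool.Agent.Q97.RS

open MeasureTheory Set Metric Filter Topology Module
open scoped ENNReal NNReal

variable {V : Type*} [NormedAddCommGroup V] [InnerProductSpace ℝ V] [FiniteDimensional ℝ V]
  [MeasurableSpace V] [BorelSpace V]

/-- the kernel `|z|^{-(d-1)}` -/
noncomputable def kap (z : V) : ℝ≥0∞ := ‖z‖ₑ ^ (-((finrank ℝ V : ℝ) - 1))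

theorem kap_meas : Measurable (kap : V → ℝ≥0∞) := measurable_enorm.pow_const _

theorem kap_neg (z : V) : kap (-z) = kap z := by unfold kap; rw [enorm_neg]

theorem kap_ball_one (hd : 2 ≤ finrank ℝ V) :
    ∫⁻ z in ball (0 : V) 1, kap z < ∞ := by
  have hd' : (2 : ℝ) ≤ finrank ℝ V := by exact_mod_cast hd
  have h1 : IntegrableOn (fun z : V => ‖z‖ ^ (-((finrank ℝ V : ℝ) - 1))) (ball 0 1) volume := by
    refine integrableOn_ball_of_norm_le_rpow (μ := (volume : Measure V)) (by omega)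
      (C := 1) (α := (finrank ℝ V : ℝ) - 1) (by linarith) ?_ ?_
    · refine Eventually.of_forall fun x => ?_
      rw [one_mul, Real.norm_eq_abs, abs_of_nonneg (by positivity)]
    · exact (measurable_norm.pow_const _).aestronglyMeasurable
  have h2 := h1.2
  rw [hasFiniteIntegral_iff_enorm] at h2
  refine lt_of_le_of_lt (le_of_eq ?_) h2
  refine lintegral_congr_ae ?_
  have h0 : ∀ᵐ z : V ∂(volume.restrict (ball (0 : V) 1)), z ≠ 0 := by
    refine ae_restrict_of_ae ?_
    have : Nontrivial V := Module.nontrivial_of_finrank_pos (R := ℝ) (by omega)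
    exact (measure_eq_zero_iff_ae_notMem (s := {(0 : V)})).1 (measure_singleton 0)
  filter_upwards [h0] with z hz
  unfold kap
  rw [← ofReal_norm, ← ofReal_norm, ENNReal.ofReal_rpow_of_pos (norm_pos_iff.2 hz),
    Real.norm_eq_abs, abs_of_nonneg (by positivity)]

/-- the mass of the kernel on a ball -/
theorem kap_ball {r : ℝ} (hr : 0 < r) :
    ∫⁻ z in ball (0 : V) r, kap z = ENNReal.ofReal r * ∫⁻ z in ball (0 : V) 1, kap z := by
  have hr0 : r ≠ 0 := hr.ne'
  have h1 := Measure.map_addHaar_smul (volume : Measure V) hr0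
  have hsm : Measurable fun z : V => r • z := measurable_const_smul _
  have h2 : ∫⁻ z, (ball (0 : V) r).indicator kap z ∂(Measure.map (fun z : V => r • z) volume) =
      ∫⁻ z, (ball (0 : V) r).indicator kap (r • z) :=
    lintegral_map (kap_meas.indicator measurableSet_ball) hsm
  have h3 : ∀ z : V, (ball (0 : V) r).indicator kap (r • z) =
      ENNReal.ofReal (r ^ (-((finrank ℝ V : ℝ) - 1))) * (ball (0 : V) 1).indicator kap z := by
    intro z
    by_cases hz : z ∈ ball (0 : V) 1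
    · have hz' : r • z ∈ ball (0 : V) r := by
        rw [mem_ball_zero_iff] at hz ⊢
        rw [norm_smul, Real.norm_eq_abs, abs_of_pos hr]
        nlinarith
      rw [indicator_of_mem hz, indicator_of_mem hz']
      unfold kap
      rw [enorm_smul, ENNReal.mul_rpow_of_ne_top (by simp) (by simp), Real.enorm_eq_ofReal hr.le,
        ENNReal.ofReal_rpow_of_pos hr]
    · have hz' : r • z ∉ ball (0 : V) r := by
        rw [mem_ball_zero_iff] at hz ⊢
        rw [norm_smul, Real.norm_eq_abs, abs_of_pos hr]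
        intro h
        apply hz
        have := (mul_lt_iff_lt_one_right hr).1 h
        exact this
      rw [indicator_of_notMem hz, indicator_of_notMem hz', mul_zero]
  rw [h1, lintegral_smul_measure] at h2
  simp_rw [h3] at h2
  rw [lintegral_const_mul _ (kap_meas.indicator measurableSet_ball),
    lintegral_indicator measurableSet_ball, lintegral_indicator measurableSet_ball] at h2
  rw [abs_of_pos (by positivity), smul_eq_mul] at h2
  have h4 : ENNReal.ofReal (r ^ finrank ℝ V)⁻¹ ≠ 0 := by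
    rw [Ne, ENNReal.ofReal_eq_zero, not_le]
    positivity
  have h5 : ENNReal.ofReal (r ^ finrank ℝ V) * ENNReal.ofReal (r ^ finrank ℝ V)⁻¹ = 1 := by
    rw [← ENNReal.ofReal_mul (by positivity), mul_inv_cancel₀ (by positivity), ENNReal.ofReal_one]
  calc ∫⁻ z in ball (0 : V) r, kap z
      = ENNReal.ofReal (r ^ finrank ℝ V) * (ENNReal.ofReal (r ^ finrank ℝ V)⁻¹ *
          ∫⁻ z in ball (0 : V) r, kap z) := by rw [← mul_assoc, h5, one_mul]
    _ = ENNReal.ofReal (r ^ finrank ℝ V) * (ENNReal.ofReal (r ^ (-((finrank ℝ V : ℝ) - 1))) *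
          ∫⁻ z in ball (0 : V) 1, kap z) := by rw [h2]
    _ = _ := by
      rw [← mul_assoc, ← ENNReal.ofReal_mul (by positivity)]
      congr 2
      rw [← Real.rpow_natCast, ← Real.rpow_add hr]
      ring_nf
      exact Real.rpow_one r

/-- **Bathtub estimate.** -/
theorem bathtub (hd : 2 ≤ finrank ℝ V) : ∃ C : ℝ≥0, 0 < C ∧ ∀ (E : Set V) (y : V),
    ∫⁻ x in E, kap (x - y) ≤ C * (volume E) ^ (1 / (finrank ℝ V : ℝ)) := by
  have hd' : (2 : ℝ) ≤ finrank ℝ V := by exact_mod_cast hd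
  set c : ℝ≥0∞ := ∫⁻ z in ball (0 : V) 1, kap z with hc
  have hcfin : c < ∞ := kap_ball_one hd
  refine ⟨c.toNNReal + 1, by positivity, fun E y => ?_⟩
  have hC : ((c.toNNReal + 1 : ℝ≥0) : ℝ≥0∞) = c + 1 := by
    rw [ENNReal.coe_add, ENNReal.coe_toNNReal hcfin.ne, ENNReal.coe_one]
  rw [hC]
  rcases eq_or_ne (volume E) ∞ with hE | hE
  · rw [hE, ENNReal.top_rpow_of_pos (by positivity), ENNReal.mul_top (by positivity)]
    exact le_top
  rcases eq_or_ne (volume E) 0 with hE0 | hE0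
  · rw [Measure.restrict_eq_zero.2 hE0, lintegral_zero_measure]
    exact zero_le
  set m : ℝ := (volume E).toReal with hm
  have hmpos : 0 < m := ENNReal.toReal_pos hE0 hE
  have hme : volume E = ENNReal.ofReal m := (ENNReal.ofReal_toReal hE).symm
  set r : ℝ := m ^ (1 / (finrank ℝ V : ℝ)) with hr
  have hrpos : 0 < r := Real.rpow_pos_of_pos hmpos _
  have hrm : r ^ (finrank ℝ V : ℝ) = m := by
    rw [hr, ← Real.rpow_mul hmpos.le, one_div, inv_mul_cancel₀ (by positivity), Real.rpow_one]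
  have hvr : (volume E) ^ (1 / (finrank ℝ V : ℝ)) = ENNReal.ofReal r := by
    rw [hme, ENNReal.ofReal_rpow_of_pos hmpos]
  rw [hvr]
  -- pointwise bound
  have hpt : ∀ x : V, kap (x - y) ≤ (ball (0 : V) r).indicator kap (x - y) +
      ENNReal.ofReal (r ^ (-((finrank ℝ V : ℝ) - 1))) := by
    intro x
    by_cases hx : x - y ∈ ball (0 : V) r
    · rw [indicator_of_mem hx]; exact le_self_add
    · rw [indicator_of_notMem hx, zero_add]
      rw [mem_ball_zero_iff, not_lt] at hx
      unfold kap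
      rw [← ofReal_norm, ENNReal.ofReal_rpow_of_pos (lt_of_lt_of_le hrpos hx)]
      exact ENNReal.ofReal_le_ofReal (Real.rpow_le_rpow_of_nonpos hrpos hx (by linarith))
  have hshift : ∫⁻ x, (ball (0 : V) r).indicator kap (x - y) = ENNReal.ofReal r * c := by
    rw [lintegral_sub_right_eq_self (fun x => (ball (0 : V) r).indicator kap x) y,
      lintegral_indicator measurableSet_ball, kap_ball hrpos]
  calc ∫⁻ x in E, kap (x - y)
      ≤ ∫⁻ x in E, ((ball (0 : V) r).indicator kap (x - y) +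
          ENNReal.ofReal (r ^ (-((finrank ℝ V : ℝ) - 1)))) := lintegral_mono fun x => hpt x
    _ = (∫⁻ x in E, (ball (0 : V) r).indicator kap (x - y)) +
          ENNReal.ofReal (r ^ (-((finrank ℝ V : ℝ) - 1))) * volume E := by
        rw [lintegral_add_right _ measurable_const, setLIntegral_const]
    _ ≤ ENNReal.ofReal r * c + ENNReal.ofReal r := by
        refine add_le_add ?_ (le_of_eq ?_)
        · rw [← hshift]
          exact setLIntegral_le_lintegral _ _
        · rw [hme, ← ENNReal.ofReal_mul (by positivity)]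
          congr 1
          rw [← hrm, ← Real.rpow_add hrpos]
          ring_nf
          exact Real.rpow_one r
    _ = (c + 1) * ENNReal.ofReal r := by ring


/-- the potential of a truncated function -/
theorem pot_trunc (hd : 2 ≤ finrank ℝ V) : ∃ C : ℝ≥0, 0 < C ∧ ∀ (Φ : V → ℝ≥0), Measurable Φ →
    ∀ (y : V) (t : ℝ≥0),
    ∫⁻ x, kap (x - y) * (min (Φ x) t : ℝ≥0) ≤
      C * (∫⁻ x, (Φ x : ℝ≥0∞) ^ (2 * (finrank ℝ V : ℝ) / (finrank ℝ V + 1))) ^
        (1 / (finrank ℝ V : ℝ)) *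
        (t : ℝ≥0∞) ^ (((finrank ℝ V : ℝ) - 1) / (finrank ℝ V + 1)) := by
  have hd' : (2 : ℝ) ≤ finrank ℝ V := by exact_mod_cast hd
  obtain ⟨C0, hC0, hbath⟩ := bathtub (V := V) hd
  set d : ℝ := (finrank ℝ V : ℝ) with hdd
  have h1 : 0 < 1 - 2 / (d + 1) := by
    rw [sub_pos, div_lt_one (by linarith)]
    linarith
  refine ⟨C0 * (1 / (1 - 2 / (d + 1))).toNNReal, by positivity, fun Φ hΦ y t => ?_⟩
  set p : ℝ := 2 * d / (d + 1) with hp
  have hp0 : 0 < p := by positivity
  set N : ℝ≥0∞ := ∫⁻ x, (Φ x : ℝ≥0∞) ^ p with hN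
  -- layer cake with respect to the measure with density the kernel
  set ν : Measure V := (volume : Measure V).withDensity (fun x => kap (x - y)) with hν
  have hkm : Measurable fun x : V => kap (x - y) := kap_meas.comp (measurable_id.sub_const y)
  have hmin : Measurable fun x : V => ((min (Φ x) t : ℝ≥0) : ℝ) :=
    (hΦ.min measurable_const).coe_nnreal_real
  have e1 : ∫⁻ x, kap (x - y) * (min (Φ x) t : ℝ≥0) =
      ∫⁻ x, ENNReal.ofReal ((min (Φ x) t : ℝ≥0) : ℝ) ∂ν := by
    rw [hν, lintegral_withDensity_eq_lintegral_mul _ hkm hmin.ennreal_ofReal]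
    refine lintegral_congr fun x => ?_
    simp only [Pi.mul_apply]
    rw [ENNReal.ofReal_coe_nnreal]
  rw [e1, lintegral_eq_lintegral_meas_lt ν (Eventually.of_forall fun x => NNReal.coe_nonneg _)
    hmin.aemeasurable]
  have e2 : ∀ s ∈ Ioi (0 : ℝ), ν {a : V | s < ((min (Φ a) t : ℝ≥0) : ℝ)} ≤
      (Ioc (0 : ℝ) t).indicator (fun s => C0 * (N ^ (1 / d) *
        ENNReal.ofReal (s ^ (-(2 / (d + 1)))))) s := by
    intro s hs
    rw [mem_Ioi] at hs
    by_cases hst : s ≤ t
    · rw [indicator_of_mem (show s ∈ Ioc (0 : ℝ) t from ⟨hs, hst⟩)]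
      have hsub : {a : V | s < ((min (Φ a) t : ℝ≥0) : ℝ)} ⊆ {a : V | s.toNNReal ≤ Φ a} := by
        intro a ha
        simp only [mem_ofPred_eq] at ha ⊢
        rw [NNReal.coe_min] at ha
        have := (lt_min_iff.1 ha).1
        exact Real.toNNReal_le_iff_le_coe.2 this.le
      have hEm : MeasurableSet {a : V | s.toNNReal ≤ Φ a} := measurableSet_le measurable_const hΦ
      refine (measure_mono hsub).trans ?_
      rw [hν, withDensity_apply _ hEm]
      refine (hbath _ y).trans ?_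
      refine mul_le_mul_right ?_ _
      -- Chebyshev
      have hch : volume {a : V | s.toNNReal ≤ Φ a} ≤ N * ENNReal.ofReal (s ^ (-p)) := by
        have hs0 : ENNReal.ofReal (s ^ p) ≠ 0 := by
          rw [Ne, ENNReal.ofReal_eq_zero, not_le]
          positivity
        have h3 : ENNReal.ofReal (s ^ p) * volume {a : V | ENNReal.ofReal (s ^ p) ≤
            (Φ a : ℝ≥0∞) ^ p} ≤ N :=
          mul_meas_ge_le_lintegral₀ (hΦ.coe_nnreal_ennreal.pow_const p).aemeasurable _
        have h4 : {a : V | s.toNNReal ≤ Φ a} ⊆ {a : V | ENNReal.ofReal (s ^ p) ≤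
            (Φ a : ℝ≥0∞) ^ p} := by
          intro a ha
          simp only [mem_ofPred_eq] at ha ⊢
          rw [← ENNReal.ofReal_rpow_of_pos hs]
          exact ENNReal.rpow_le_rpow (ENNReal.coe_le_coe.2 ha) hp0.le
        have h5 : ENNReal.ofReal (s ^ (-p)) = (ENNReal.ofReal (s ^ p))⁻¹ := by
          rw [← ENNReal.ofReal_inv_of_pos (by positivity), Real.rpow_neg hs.le]
        rw [h5, ← div_eq_mul_inv, ENNReal.le_div_iff_mul_le (Or.inl hs0)
          (Or.inl ENNReal.ofReal_ne_top), mul_comm]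
        exact (mul_le_mul_right (measure_mono h4) _).trans h3
      refine (ENNReal.rpow_le_rpow hch (by positivity)).trans (le_of_eq ?_)
      rw [ENNReal.mul_rpow_of_nonneg _ _ (by positivity), ENNReal.ofReal_rpow_of_pos (by positivity),
        ← Real.rpow_mul hs.le]
      congr 3
      rw [hp]
      field_simp
    · have : {a : V | s < ((min (Φ a) t : ℝ≥0) : ℝ)} = ∅ := by
        ext a
        simp only [mem_ofPred_eq, mem_empty_iff_false, iff_false, not_lt]
        rw [NNReal.coe_min]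
        exact (min_le_right _ _).trans (not_le.1 hst).le
      rw [this, measure_empty]
      exact zero_le
  refine (setLIntegral_mono' measurableSet_Ioi e2).trans ?_
  have e3 : ∫⁻ s in Ioi (0 : ℝ), (Ioc (0 : ℝ) t).indicator (fun s => C0 * (N ^ (1 / d) *
        ENNReal.ofReal (s ^ (-(2 / (d + 1)))))) s =
      C0 * (N ^ (1 / d) * ∫⁻ s in Ioc (0 : ℝ) t, ENNReal.ofReal (s ^ (-(2 / (d + 1))))) := by
    rw [setLIntegral_indicator measurableSet_Ioc, inter_eq_left.2 Ioc_subset_Ioi_self,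
      lintegral_const_mul _ (by fun_prop), lintegral_const_mul _ (by fun_prop)]
  rw [e3]
  have e4 : ∫⁻ s in Ioc (0 : ℝ) t, ENNReal.ofReal (s ^ (-(2 / (d + 1)))) =
      ENNReal.ofReal (1 / (1 - 2 / (d + 1))) * (t : ℝ≥0∞) ^ ((d - 1) / (d + 1)) := by
    have hint : IntegrableOn (fun s : ℝ => s ^ (-(2 / (d + 1)))) (Ioc (0 : ℝ) t) := by
      have := intervalIntegral.intervalIntegrable_rpow' (a := 0) (b := (t : ℝ))
        (r := -(2 / (d + 1))) (by linarith)
      rwa [intervalIntegrable_iff_integrableOn_Ioc_of_le (NNReal.coe_nonneg t)] at this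
    rw [← ofReal_integral_eq_lintegral_ofReal hint ((ae_restrict_iff' measurableSet_Ioc).2
      (Eventually.of_forall fun s hs => Real.rpow_nonneg hs.1.le _)),
      ← intervalIntegral.integral_of_le (NNReal.coe_nonneg t), integral_rpow (Or.inl (by linarith)),
      Real.zero_rpow (by linarith), sub_zero]
    have h6 : -(2 / (d + 1)) + 1 = (d - 1) / (d + 1) := by
      field_simp
      ring
    have h7 : 1 - 2 / (d + 1) = (d - 1) / (d + 1) := by
      field_simp
      ring
    rw [h6, h7, ← ENNReal.ofReal_coe_nnreal, ENNReal.ofReal_rpow_of_nonneg (NNReal.coe_nonneg t) (by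
      apply div_nonneg <;> linarith), ← ENNReal.ofReal_mul (by
      apply div_nonneg zero_le_one; apply div_nonneg <;> linarith)]
    congr 1
    rw [one_div, inv_mul_eq_div]
  rw [e4]
  refine le_of_eq ?_
  rw [ENNReal.coe_mul]
  rw [show (((1 / (1 - 2 / (d + 1))).toNNReal : ℝ≥0) : ℝ≥0∞) =
    ENNReal.ofReal (1 / (1 - 2 / (d + 1))) from rfl]
  ring


/-- **Diagonal Hardy-Littlewood-Sobolev inequality.** -/
theorem hls (hd : 2 ≤ finrank ℝ V) : ∃ C : ℝ≥0, 0 < C ∧ ∀ (Φ : V → ℝ≥0), Measurable Φ →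
    ∫⁻ q : V × V, kap (q.1 - q.2) * (Φ q.1 * Φ q.2) ∂(volume.prod volume) ≤
      C * (∫⁻ x, (Φ x : ℝ≥0∞) ^ (2 * (finrank ℝ V : ℝ) / (finrank ℝ V + 1))) ^
        (((finrank ℝ V : ℝ) + 1) / finrank ℝ V) := by
  have hd' : (2 : ℝ) ≤ finrank ℝ V := by exact_mod_cast hd
  obtain ⟨C0, hC0, hpot⟩ := pot_trunc (V := V) hd
  set d : ℝ := (finrank ℝ V : ℝ) with hdd
  refine ⟨2 * C0, by positivity, fun Φ hΦ => ?_⟩
  set p : ℝ := 2 * d / (d + 1) with hp
  have hp0 : 0 < p := by positivity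
  set N : ℝ≥0∞ := ∫⁻ x, (Φ x : ℝ≥0∞) ^ p with hN
  have hΦe : Measurable fun x => (Φ x : ℝ≥0∞) := hΦ.coe_nnreal_ennreal
  have hk2 : Measurable fun q : V × V => kap (q.1 - q.2) :=
    kap_meas.comp (measurable_fst.sub measurable_snd)
  have hm1 : Measurable fun q : V × V => ((min (Φ q.1) (Φ q.2) : ℝ≥0) : ℝ≥0∞) :=
    ((hΦ.comp measurable_fst).min (hΦ.comp measurable_snd)).coe_nnreal_ennreal
  have mA : Measurable fun q : V × V =>
      kap (q.1 - q.2) * ((min (Φ q.1) (Φ q.2) : ℝ≥0) : ℝ≥0∞) * Φ q.2 :=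
    (hk2.mul hm1).mul (hΦe.comp measurable_snd)
  have mB : Measurable fun q : V × V =>
      kap (q.1 - q.2) * ((min (Φ q.1) (Φ q.2) : ℝ≥0) : ℝ≥0∞) * Φ q.1 :=
    (hk2.mul hm1).mul (hΦe.comp measurable_fst)
  -- pointwise
  have hpt : ∀ q : V × V, kap (q.1 - q.2) * ((Φ q.1 : ℝ≥0∞) * Φ q.2) ≤
      kap (q.1 - q.2) * ((min (Φ q.1) (Φ q.2) : ℝ≥0) : ℝ≥0∞) * Φ q.2 +
      kap (q.1 - q.2) * ((min (Φ q.1) (Φ q.2) : ℝ≥0) : ℝ≥0∞) * Φ q.1 := by
    intro q
    rcases le_total (Φ q.1) (Φ q.2) with h | h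
    · rw [min_eq_left h, ← mul_assoc]
      exact le_self_add
    · rw [min_eq_right h, mul_comm (Φ q.1 : ℝ≥0∞), ← mul_assoc]
      exact le_add_self
  have hone : ∀ y : V, ∫⁻ x, kap (x - y) * ((min (Φ x) (Φ y) : ℝ≥0) : ℝ≥0∞) * Φ y ≤
      C0 * N ^ (1 / d) * (Φ y : ℝ≥0∞) ^ p := by
    intro y
    have mm : Measurable fun x : V => kap (x - y) * ((min (Φ x) (Φ y) : ℝ≥0) : ℝ≥0∞) :=
      (kap_meas.comp (measurable_id.sub_const y)).mul (hΦ.min measurable_const).coe_nnreal_ennreal
    rw [lintegral_mul_const _ mm]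
    refine (mul_le_mul_left (hpot Φ hΦ y (Φ y)) _).trans (le_of_eq ?_)
    rw [mul_assoc]
    congr 1
    conv_lhs => rw [← ENNReal.rpow_one (Φ y : ℝ≥0∞), ← ENNReal.rpow_mul]
    rw [← ENNReal.rpow_add_of_nonneg _ _ (by
      apply mul_nonneg zero_le_one; apply div_nonneg <;> linarith) zero_le_one]
    congr 1
    rw [hp]
    field_simp
    ring
  have htot : ∫⁻ y, ∫⁻ x, kap (x - y) * ((min (Φ x) (Φ y) : ℝ≥0) : ℝ≥0∞) * Φ y ≤
      C0 * N ^ (1 / d) * N := by
    refine (lintegral_mono hone).trans (le_of_eq ?_)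
    rw [lintegral_const_mul _ (hΦe.pow_const p)]
  have hfin : C0 * N ^ (1 / d) * N = C0 * N ^ ((d + 1) / d) := by
    rw [mul_assoc]
    congr 1
    conv_lhs => rw [← ENNReal.rpow_one N, ← ENNReal.rpow_mul]
    rw [← ENNReal.rpow_add_of_nonneg _ _ (by positivity) zero_le_one]
    congr 1
    field_simp
    ring
  calc ∫⁻ q : V × V, kap (q.1 - q.2) * (Φ q.1 * Φ q.2) ∂(volume.prod volume)
      ≤ ∫⁻ q : V × V, (kap (q.1 - q.2) * ((min (Φ q.1) (Φ q.2) : ℝ≥0) : ℝ≥0∞) * Φ q.2 +
          kap (q.1 - q.2) * ((min (Φ q.1) (Φ q.2) : ℝ≥0) : ℝ≥0∞) * Φ q.1)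
          ∂(volume.prod volume) := lintegral_mono hpt
    _ = (∫⁻ q : V × V, kap (q.1 - q.2) * ((min (Φ q.1) (Φ q.2) : ℝ≥0) : ℝ≥0∞) * Φ q.2
          ∂(volume.prod volume)) +
        ∫⁻ q : V × V, kap (q.1 - q.2) * ((min (Φ q.1) (Φ q.2) : ℝ≥0) : ℝ≥0∞) * Φ q.1
          ∂(volume.prod volume) := by
        rw [lintegral_add_left mA]
    _ ≤ C0 * N ^ (1 / d) * N + C0 * N ^ (1 / d) * N := by
        refine add_le_add ?_ ?_
        · rw [lintegral_prod_symm' _ mA]
          exact htot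
        · rw [lintegral_prod _ mB.aemeasurable]
          refine le_trans (le_of_eq ?_) htot
          refine lintegral_congr fun y => lintegral_congr fun x => ?_
          simp only
          rw [← kap_neg, neg_sub, min_comm]
    _ = (2 * C0 : ℝ≥0) * N ^ ((d + 1) / d) := by
        rw [hfin, ENNReal.coe_mul, mul_assoc, ENNReal.coe_ofNat, two_mul]

end Pool.Agent.Q97.RS
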