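import Mathlib
import Pool.Agent.Q97.RS.Pos
import Pool.Agent.Q97.RS.Ker
set_option autoImplicit false
set_option linter.unusedSectionVars false

/-! The two-point inequality and its consequences for large values. -/

namespace Pool.Agent.Q97.RS

open MeasureTheory Set Metric Filter Topology Module
open scoped ENNReal NNReal Pointwise

variable {V : Type*} [NormedAddCommGroup V] [InnerProductSpace ℝ V] [FiniteDimensional ℝ V]
  [MeasurableSpace V] [BorelSpace V]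

/-- the positivity principle for weights which are functions -/
theorem avg_lint (μ : Measure V) [IsFiniteMeasure μ] {g : V → ℂ} (hg : Measurable g) {M : ℝ}
    (hM : ∀ x, ‖g x‖ ≤ M) (w : V) (Φ : V → ℝ≥0) (hΦ : Measurable Φ) :
    ∫⁻ q : V × V, ‖Fh μ g (w + q.1 - q.2)‖ₑ ^ 2 * (Φ q.1 * Φ q.2) ∂(volume.prod volume) ≤
      ENNReal.ofReal (M ^ 2) * ∫⁻ q : V × V, ‖Fh μ (fun _ => 1) (q.1 - q.2)‖ₑ ^ 2 *
        (Φ q.1 * Φ q.2) ∂(volume.prod volume) := by
  have hM0 : 0 ≤ M := (norm_nonneg _).trans (hM 0)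
  have hF : Measurable (Fh μ g) := (Fh_meas μ hg).measurable
  have hK : Measurable (Fh μ (fun _ => (1 : ℂ))) := (Fh_meas μ measurable_const).measurable
  have mF : Measurable fun q : V × V => ‖Fh μ g (w + q.1 - q.2)‖ₑ ^ 2 :=
    (hF.comp ((measurable_const.add measurable_fst).sub measurable_snd)).enorm.pow_const 2
  have mK : Measurable fun q : V × V => ‖Fh μ (fun _ => (1 : ℂ)) (q.1 - q.2)‖ₑ ^ 2 :=
    (hK.comp (measurable_fst.sub measurable_snd)).enorm.pow_const 2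
  -- finite pieces
  set S : ℕ → Set V := spanningSets (volume : Measure V) with hS
  let Ψ : ℕ → V → ℝ≥0 := fun k => (S k).indicator fun x => min (Φ x) k
  have hΨm : ∀ k, Measurable (Ψ k) := fun k =>
    (hΦ.min measurable_const).indicator (measurableSet_spanningSets _ k)
  have hΨle : ∀ k x, Ψ k x ≤ Φ x := by
    intro k x
    by_cases hx : x ∈ S k
    · simp only [Ψ, indicator_of_mem hx]
      exact min_le_left _ _
    · simp only [Ψ, indicator_of_notMem hx]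
      exact zero_le
  have hfinite : ∀ k, ∫⁻ x, (Ψ k x : ℝ≥0∞) ≠ ∞ := by
    intro k
    have h1 : ∫⁻ x, (Ψ k x : ℝ≥0∞) ≤ ∫⁻ x, (S k).indicator (fun _ => (k : ℝ≥0∞)) x := by
      refine lintegral_mono fun x => ?_
      by_cases hx : x ∈ S k
      · simp only [Ψ, indicator_of_mem hx]
        exact_mod_cast min_le_right (Φ x) (k : ℝ≥0)
      · simp only [Ψ, indicator_of_notMem hx]
        simp
    rw [lintegral_indicator (measurableSet_spanningSets _ k), setLIntegral_const] at h1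
    exact ne_top_of_le_ne_top (ENNReal.mul_ne_top (by simp)
      (measure_spanningSets_lt_top _ k).ne) h1
  have step : ∀ k, ∫⁻ q : V × V, ‖Fh μ g (w + q.1 - q.2)‖ₑ ^ 2 * (Ψ k q.1 * Ψ k q.2)
      ∂(volume.prod volume) ≤ ENNReal.ofReal (M ^ 2) * ∫⁻ q : V × V,
        ‖Fh μ (fun _ => 1) (q.1 - q.2)‖ₑ ^ 2 * (Φ q.1 * Φ q.2) ∂(volume.prod volume) := by
    intro k
    have hΨe : Measurable fun x => (Ψ k x : ℝ≥0∞) := (hΨm k).coe_nnreal_ennreal
    set ν : Measure V := (volume : Measure V).withDensity fun x => (Ψ k x : ℝ≥0∞) with hν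
    have : IsFiniteMeasure ν := isFiniteMeasure_withDensity (hfinite k)
    have hprod : ν.prod ν = ((volume : Measure V).prod volume).withDensity
        (fun z => (Ψ k z.1 : ℝ≥0∞) * Ψ k z.2) := prod_withDensity hΨe hΨe
    have hdm : Measurable fun z : V × V => (Ψ k z.1 : ℝ≥0∞) * Ψ k z.2 :=
      (hΨe.comp measurable_fst).mul (hΨe.comp measurable_snd)
    have e1 : ∀ h : V × V → ℝ≥0∞, Measurable h →
        ∫⁻ q, h q ∂(ν.prod ν) = ∫⁻ q, h q * (Ψ k q.1 * Ψ k q.2) ∂(volume.prod volume) := by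
      intro h hh
      rw [hprod, lintegral_withDensity_eq_lintegral_mul _ hdm hh]
      refine lintegral_congr fun q => ?_
      simp only [Pi.mul_apply]
      rw [mul_comm]
    have e2 : ∀ (h : V × V → ℂ), Measurable h → (∃ B, ∀ q, ‖h q‖ ≤ B) →
        ∫⁻ q, ‖h q‖ₑ ^ 2 ∂(ν.prod ν) = ENNReal.ofReal (∫ q, ‖h q‖ ^ 2 ∂(ν.prod ν)) := by
      rintro h hh ⟨B, hB⟩
      rw [ofReal_integral_eq_lintegral_ofReal]
      · refine lintegral_congr fun q => ?_
        rw [ENNReal.ofReal_pow (norm_nonneg _), ofReal_norm]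
      · refine Integrable.of_bound (hh.norm.pow_const 2).aestronglyMeasurable (B ^ 2)
          (Eventually.of_forall fun q => ?_)
        rw [Real.norm_eq_abs, abs_of_nonneg (by positivity)]
        exact pow_le_pow_left₀ (norm_nonneg _) (hB q) 2
      · exact Eventually.of_forall fun q => by positivity
    rw [← e1 _ mF, e2 (fun q : V × V => Fh μ g (w + q.1 - q.2))
      (hF.comp ((measurable_const.add measurable_fst).sub measurable_snd))
      ⟨M * μ.real univ, fun q => Fh_norm_le μ hM _⟩]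
    refine (ENNReal.ofReal_le_ofReal (avg_le μ ν hg hM w)).trans ?_
    rw [ENNReal.ofReal_mul (by positivity), ← e2 (fun q : V × V => Fh μ (fun _ => 1) (q.1 - q.2))
      (hK.comp (measurable_fst.sub measurable_snd))
      ⟨1 * μ.real univ, fun q => Fh_norm_le μ (by simp) _⟩, e1 _ mK]
    refine mul_le_mul_right (lintegral_mono fun q => mul_le_mul_right ?_ _) _
    exact mul_le_mul' (ENNReal.coe_le_coe.2 (hΨle k _)) (ENNReal.coe_le_coe.2 (hΨle k _))
  -- Fatou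
  have hlim : ∀ q : V × V, ‖Fh μ g (w + q.1 - q.2)‖ₑ ^ 2 * ((Φ q.1 : ℝ≥0∞) * Φ q.2) =
      liminf (fun k => ‖Fh μ g (w + q.1 - q.2)‖ₑ ^ 2 * ((Ψ k q.1 : ℝ≥0∞) * Ψ k q.2)) atTop := by
    intro q
    have hev : ∀ x : V, ∀ᶠ k : ℕ in atTop, Ψ k x = Φ x := by
      intro x
      have h1 : x ∈ ⋃ k, S k := by rw [hS, iUnion_spanningSets]; trivial
      obtain ⟨k0, hk0⟩ := mem_iUnion.1 h1
      obtain ⟨k1, hk1⟩ := exists_nat_ge (Φ x)
      filter_upwards [eventually_ge_atTop (max k0 k1)] with k hk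
      have hx : x ∈ S k := monotone_spanningSets _ ((le_max_left _ _).trans hk) hk0
      simp only [Ψ, indicator_of_mem hx]
      refine min_eq_left (hk1.trans ?_)
      exact_mod_cast (le_max_right _ _).trans hk
    have h2 : (fun k => ‖Fh μ g (w + q.1 - q.2)‖ₑ ^ 2 * ((Ψ k q.1 : ℝ≥0∞) * Ψ k q.2)) =ᶠ[atTop]
        fun _ => ‖Fh μ g (w + q.1 - q.2)‖ₑ ^ 2 * ((Φ q.1 : ℝ≥0∞) * Φ q.2) := by
      filter_upwards [hev q.1, hev q.2] with k h1 h2
      rw [h1, h2]
    rw [liminf_congr h2, liminf_const]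
  simp_rw [hlim]
  refine (lintegral_liminf_le fun k => ?_).trans ?_
  · exact mF.mul (((hΨm k).coe_nnreal_ennreal.comp measurable_fst).mul
      ((hΨm k).coe_nnreal_ennreal.comp measurable_snd))
  · refine (liminf_le_liminf (Eventually.of_forall step)).trans ?_
    rw [liminf_const]

/-- **The two-point inequality.** -/
theorem two_point (hd : 2 ≤ finrank ℝ V) : ∃ C : ℝ≥0, 0 < C ∧
    ∀ (μ : Measure V) [IsFiniteMeasure μ] (D : ℝ≥0),
      (∀ z : V, ‖Fh μ (fun _ => 1) z‖ₑ ^ 2 ≤ D * kap z) →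
      ∀ {g : V → ℂ}, Measurable g → ∀ {M : ℝ}, (∀ x, ‖g x‖ ≤ M) → ∀ (w : V) (Φ : V → ℝ≥0),
      Measurable Φ →
      ∫⁻ q : V × V, ‖Fh μ g (w + q.1 - q.2)‖ₑ ^ 2 * (Φ q.1 * Φ q.2) ∂(volume.prod volume) ≤
        ENNReal.ofReal (M ^ 2) * (C * D *
          (∫⁻ x, (Φ x : ℝ≥0∞) ^ (2 * (finrank ℝ V : ℝ) / (finrank ℝ V + 1))) ^
            (((finrank ℝ V : ℝ) + 1) / finrank ℝ V)) := by
  obtain ⟨C, hC, hhls⟩ := hls (V := V) hd
  refine ⟨C, hC, fun μ _ D hD g hg M hM w Φ hΦ => ?_⟩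
  refine (avg_lint μ hg hM w Φ hΦ).trans (mul_le_mul_right ?_ _)
  calc ∫⁻ q : V × V, ‖Fh μ (fun _ => 1) (q.1 - q.2)‖ₑ ^ 2 * (Φ q.1 * Φ q.2)
        ∂(volume.prod volume)
      ≤ ∫⁻ q : V × V, D * (kap (q.1 - q.2) * (Φ q.1 * Φ q.2)) ∂(volume.prod volume) := by
        refine lintegral_mono fun q => ?_
        rw [← mul_assoc (D : ℝ≥0∞)]
        exact mul_le_mul_left (hD _) _
    _ = D * ∫⁻ q : V × V, kap (q.1 - q.2) * (Φ q.1 * Φ q.2) ∂(volume.prod volume) := by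
        rw [lintegral_const_mul' _ _ ENNReal.coe_ne_top]
    _ ≤ D * (C * (∫⁻ x, (Φ x : ℝ≥0∞) ^ (2 * (finrank ℝ V : ℝ) / (finrank ℝ V + 1))) ^
            (((finrank ℝ V : ℝ) + 1) / finrank ℝ V)) := mul_le_mul_right (hhls Φ hΦ) _
    _ = _ := by ring

end Pool.Agent.Q97.RS
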