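import Mathlib
import Pool.Agent.Q97.RS.Two
set_option autoImplicit false
set_option linter.unusedSectionVars false

/-! Consequences of the two-point inequality. -/

namespace Pool.Agent.Q97.RS

open MeasureTheory Set Metric Filter Topology Module
open scoped ENNReal NNReal Pointwise

variable {V : Type*} [NormedAddCommGroup V] [InnerProductSpace ℝ V] [FiniteDimensional ℝ V]
  [MeasurableSpace V] [BorelSpace V]

/-- the two-point inequality with constant `K` -/
def TwoPoint (F : V → ℂ) (K : ℝ≥0∞) : Prop :=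
  ∀ (w : V) (Φ : V → ℝ≥0), Measurable Φ →
    ∫⁻ q : V × V, ‖F (w + q.1 - q.2)‖ₑ ^ 2 * (Φ q.1 * Φ q.2) ∂(volume.prod volume) ≤
      K * (∫⁻ x, (Φ x : ℝ≥0∞) ^ (2 * (finrank ℝ V : ℝ) / (finrank ℝ V + 1))) ^
        (((finrank ℝ V : ℝ) + 1) / finrank ℝ V)

/-- the measure of the set of representations `w + ξ - η` of elements of `E` -/
noncomputable def reps (E : Set V) (w : V) : ℝ≥0∞ :=
  (volume.prod volume) {q : V × V | q.1 ∈ E ∧ q.2 ∈ E ∧ w + q.1 - q.2 ∈ E}

theorem pow_ind (S : Set V) (hS : MeasurableSet S) {p : ℝ} (hp : 0 < p) :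
    ∫⁻ x, ((S.indicator (fun _ => (1 : ℝ≥0)) x : ℝ≥0) : ℝ≥0∞) ^ p = volume S := by
  rw [← lintegral_indicator_one hS]
  refine lintegral_congr fun x => ?_
  by_cases hx : x ∈ S
  · simp [hx]
  · simp [hx, ENNReal.zero_rpow_of_pos hp]

theorem TwoPoint.reps_le {F : V → ℂ} {K : ℝ≥0∞} (hT : TwoPoint F K) (hd : 2 ≤ finrank ℝ V)
    {E : Set V} (hE : MeasurableSet E) {l : ℝ≥0∞} (hl : ∀ x ∈ E, l ≤ ‖F x‖ₑ) (w : V) :
    l ^ 2 * reps E w ≤ K * (volume E) ^ (((finrank ℝ V : ℝ) + 1) / finrank ℝ V) := by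
  have hd' : (2 : ℝ) ≤ finrank ℝ V := by exact_mod_cast hd
  have h1 := hT w (E.indicator fun _ => (1 : ℝ≥0)) (measurable_const.indicator hE)
  rw [pow_ind E hE (by positivity)] at h1
  refine le_trans ?_ h1
  have hm : MeasurableSet {q : V × V | q.1 ∈ E ∧ q.2 ∈ E ∧ w + q.1 - q.2 ∈ E} :=
    (measurable_fst hE).inter ((measurable_snd hE).inter
      (((measurable_const.add measurable_fst).sub measurable_snd) hE))
  unfold reps
  rw [← lintegral_indicator_one hm, ← lintegral_const_mul _ (measurable_one.indicator hm)]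
  refine lintegral_mono fun q => ?_
  simp only
  by_cases hq : q ∈ {q : V × V | q.1 ∈ E ∧ q.2 ∈ E ∧ w + q.1 - q.2 ∈ E}
  · obtain ⟨a, b, c⟩ := hq
    rw [indicator_of_mem (show q ∈ {q : V × V | q.1 ∈ E ∧ q.2 ∈ E ∧ w + q.1 - q.2 ∈ E} from
      ⟨a, b, c⟩), indicator_of_mem a, indicator_of_mem b]
    simp only [Pi.one_apply, mul_one, ENNReal.coe_one]
    exact pow_le_pow_left₀ zero_le (hl _ c) 2
  · rw [indicator_of_notMem hq, mul_zero]
    exact zero_le

theorem TwoPoint.sumset {F : V → ℂ} {K : ℝ≥0∞} (hF : Measurable F) (hT : TwoPoint F K)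
    (hd : 2 ≤ finrank ℝ V) {E : Set V} (hE : MeasurableSet E) (B : Set V) :
    volume B * ∫⁻ x in E, ‖F x‖ₑ ^ 2 ≤
      K * (volume (E + B)) ^ (((finrank ℝ V : ℝ) + 1) / finrank ℝ V) := by
  have hd' : (2 : ℝ) ≤ finrank ℝ V := by exact_mod_cast hd
  rcases E.eq_empty_or_nonempty with rfl | ⟨e0, he0⟩
  · simp
  set S : Set V := toMeasurable volume (E + B) with hSdef
  have hS : MeasurableSet S := measurableSet_toMeasurable _ _
  have hsub : E + B ⊆ S := subset_toMeasurable _ _
  have hvS : volume S = volume (E + B) := measure_toMeasurable _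
  set Φ : V → ℝ≥0 := S.indicator (fun _ => (1 : ℝ≥0)) with hΦ
  have hΦm : Measurable Φ := measurable_const.indicator hS
  have hΦe : Measurable fun x => (Φ x : ℝ≥0∞) := hΦm.coe_nnreal_ennreal
  have h1 := hT e0 Φ hΦm
  rw [pow_ind S hS (by positivity), hvS] at h1
  refine le_trans ?_ h1
  have hF2 : Measurable fun v => ‖F v‖ₑ ^ 2 := hF.enorm.pow_const 2
  have mq : Measurable fun q : V × V => ‖F (e0 + q.1 - q.2)‖ₑ ^ 2 * ((Φ q.1 : ℝ≥0∞) * Φ q.2) :=
    (hF2.comp ((measurable_const.add measurable_fst).sub measurable_snd)).mul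
      ((hΦe.comp measurable_fst).mul (hΦe.comp measurable_snd))
  rw [lintegral_prod_symm' _ mq]
  have e1 : ∀ η : V, ∫⁻ ξ, ‖F (e0 + ξ - η)‖ₑ ^ 2 * ((Φ ξ : ℝ≥0∞) * Φ η) =
      ∫⁻ v, ‖F v‖ₑ ^ 2 * ((Φ (v - (e0 - η)) : ℝ≥0∞) * Φ η) := by
    intro η
    rw [← lintegral_add_right_eq_self
      (fun v => ‖F v‖ₑ ^ 2 * ((Φ (v - (e0 - η)) : ℝ≥0∞) * Φ η)) (e0 - η)]
    refine lintegral_congr fun ξ => ?_
    rw [add_sub_cancel_right, show ξ + (e0 - η) = e0 + ξ - η by abel]
  simp_rw [e1]
  have mr : Measurable fun r : V × V =>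
      ‖F r.2‖ₑ ^ 2 * ((Φ (r.2 - (e0 - r.1)) : ℝ≥0∞) * Φ r.1) :=
    (hF2.comp measurable_snd).mul ((hΦe.comp (measurable_snd.sub
      (measurable_const.sub measurable_fst))).mul (hΦe.comp measurable_fst))
  rw [lintegral_lintegral_swap mr.aemeasurable]
  have e2 : ∀ v, (E.indicator fun v => volume B * ‖F v‖ₑ ^ 2) v ≤
      ∫⁻ η, ‖F v‖ₑ ^ 2 * ((Φ (v - (e0 - η)) : ℝ≥0∞) * Φ η) := by
    intro v
    by_cases hv : v ∈ E
    · rw [indicator_of_mem hv, mul_comm]
      have m1 : Measurable fun η : V => (Φ (v - (e0 - η)) : ℝ≥0∞) * Φ η :=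
        (hΦe.comp (measurable_const.sub (measurable_const.sub measurable_id))).mul hΦe
      rw [lintegral_const_mul _ m1]
      refine mul_le_mul_right ?_ _
      set R : Set V := {η | v - (e0 - η) ∈ S ∧ η ∈ S} with hR
      have hRm : MeasurableSet R :=
        ((measurable_const.sub (measurable_const.sub measurable_id)) hS).inter hS
      have h2 : ∫⁻ η, (Φ (v - (e0 - η)) : ℝ≥0∞) * Φ η = volume R := by
        rw [← lintegral_indicator_one hRm]
        refine lintegral_congr fun η => ?_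
        by_cases ha : v - (e0 - η) ∈ S
        · by_cases hb : η ∈ S
          · have : η ∈ R := ⟨ha, hb⟩
            simp [hΦ, indicator_of_mem ha, indicator_of_mem hb, indicator_of_mem this]
          · have : η ∉ R := fun h => hb h.2
            simp [hΦ, indicator_of_notMem hb, indicator_of_notMem this]
        · have : η ∉ R := fun h => ha h.1
          simp [hΦ, indicator_of_notMem ha, indicator_of_notMem this]
      rw [h2]
      have h3 : (e0 +ᵥ B : Set V) ⊆ R := by
        rintro _ ⟨b, hb, rfl⟩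
        refine ⟨hsub ?_, hsub ?_⟩
        · refine ⟨v, hv, b, hb, ?_⟩
          simp only [vadd_eq_add]
          abel
        · exact ⟨e0, he0, b, hb, rfl⟩
      calc volume B = volume (e0 +ᵥ B : Set V) := (measure_vadd volume e0 B).symm
        _ ≤ volume R := measure_mono h3
    · rw [indicator_of_notMem hv]
      exact zero_le
  refine le_trans (le_of_eq ?_) (lintegral_mono e2)
  rw [lintegral_indicator hE, lintegral_const_mul _ hF2]


/-- a scalar integral -/
theorem min_int {n q : ℝ} (hn : 2 ≤ n) (hq : 2 * n / (n - 1) < q) : ∃ C : ℝ≥0, 0 < C ∧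
    ∀ (m : ℝ → ℝ≥0∞) (N : ℝ≥0∞),
      (∀ t : ℝ, 0 < t → m t ≤ N * ENNReal.ofReal (t ^ (-(q / (q - 1))))) →
      ∫⁻ t in Ioi (0 : ℝ), min (m t) (m t ^ ((n + 1) / (2 * n))) ≤ C * N ^ (1 - 1 / q) := by
  have hn1 : 0 < n - 1 := by linarith
  rw [div_lt_iff₀ hn1] at hq
  have hq2 : 2 < q := by nlinarith
  set a : ℝ := (n + 1) / (2 * n) with ha
  set r : ℝ := q / (q - 1) with hr
  have ha0 : 0 < a := by positivity
  have hr1 : 1 < r := by
    rw [hr, lt_div_iff₀ (by linarith)]
    linarith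
  have hra : r * a < 1 := by
    rw [hr, ha, div_mul_div_comm, div_lt_one (by nlinarith)]
    nlinarith
  have hrq : 1 / r = 1 - 1 / q := by
    rw [hr]
    field_simp
  refine ⟨(1 / (1 - r * a)).toNNReal + (1 / (r - 1)).toNNReal + 1, by positivity,
    fun m N hm => ?_⟩
  rw [← hrq]
  have hr0 : 0 < 1 / r := by positivity
  rcases eq_or_ne N ∞ with hN | hN
  · rw [hN, ENNReal.top_rpow_of_pos hr0, ENNReal.mul_top (by simp)]
    exact le_top
  rcases eq_or_ne N 0 with hN0 | hN0
  · have h1 : ∫⁻ t in Ioi (0 : ℝ), min (m t) (m t ^ a) = 0 := by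
      rw [← nonpos_iff_eq_zero]
      refine (setLIntegral_mono' (g := fun _ => 0) measurableSet_Ioi fun t ht => ?_).trans
        (by simp)
      have := hm t ht
      rw [hN0, zero_mul] at this
      exact (min_le_left _ _).trans this
    rw [h1]
    exact zero_le
  -- the splitting point
  set T : ℝ := (N.toReal) ^ (1 / r) with hT
  have hNpos : 0 < N.toReal := ENNReal.toReal_pos hN0 hN
  have hTpos : 0 < T := Real.rpow_pos_of_pos hNpos _
  have hNT : N = ENNReal.ofReal (T ^ r) := by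
    rw [hT, ← Real.rpow_mul hNpos.le, one_div, inv_mul_cancel₀ (by positivity), Real.rpow_one,
      ENNReal.ofReal_toReal hN]
  have hNr : N ^ (1 / r) = ENNReal.ofReal T := by
    rw [hNT, ENNReal.ofReal_rpow_of_pos (by positivity), ← Real.rpow_mul hTpos.le,
      mul_one_div_cancel (by positivity), Real.rpow_one]
  rw [hNr]
  have hsplit : Ioi (0 : ℝ) = Ioc 0 T ∪ Ioi T := (Ioc_union_Ioi_eq_Ioi hTpos.le).symm
  rw [hsplit, lintegral_union measurableSet_Ioi (Set.disjoint_left.2 fun x hx hx2 =>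
    absurd hx.2 (not_le.2 hx2))]
  -- small t
  have b1 : ∫⁻ t in Ioc (0 : ℝ) T, min (m t) (m t ^ a) ≤
      ENNReal.ofReal (1 / (1 - r * a)) * ENNReal.ofReal T := by
    have h2 : ∀ t ∈ Ioc (0 : ℝ) T, min (m t) (m t ^ a) ≤
        ENNReal.ofReal (T ^ (r * a) * t ^ (-(r * a))) := by
      intro t ht
      refine (min_le_right _ _).trans ((ENNReal.rpow_le_rpow (hm t ht.1) ha0.le).trans
        (le_of_eq ?_))
      rw [hNT, ← ENNReal.ofReal_mul (by positivity), ENNReal.ofReal_rpow_of_pos (by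
        have := ht.1; positivity), Real.mul_rpow (by positivity) (Real.rpow_nonneg ht.1.le _),
        ← Real.rpow_mul hTpos.le, ← Real.rpow_mul ht.1.le, neg_mul]
    refine (setLIntegral_mono' measurableSet_Ioc h2).trans (le_of_eq ?_)
    have hint : IntegrableOn (fun s : ℝ => T ^ (r * a) * s ^ (-(r * a))) (Ioc (0 : ℝ) T) := by
      have := intervalIntegral.intervalIntegrable_rpow' (a := 0) (b := T)
        (r := -(r * a)) (by linarith)
      rw [intervalIntegrable_iff_integrableOn_Ioc_of_le hTpos.le] at this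
      exact this.const_mul _
    rw [← ofReal_integral_eq_lintegral_ofReal hint ((ae_restrict_iff' measurableSet_Ioc).2
      (Eventually.of_forall fun s hs => mul_nonneg (by positivity) (Real.rpow_nonneg hs.1.le _))),
      integral_const_mul, ← intervalIntegral.integral_of_le hTpos.le,
      integral_rpow (Or.inl (by linarith)), Real.zero_rpow (by linarith), sub_zero,
      ← ENNReal.ofReal_mul (by apply div_nonneg <;> linarith)]
    congr 1
    rw [mul_div_assoc', ← Real.rpow_add hTpos]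
    rw [show r * a + (-(r * a) + 1) = 1 by ring, Real.rpow_one]
    rw [show -(r * a) + 1 = 1 - r * a by ring]
    ring
  have b2 : ∫⁻ t in Ioi T, min (m t) (m t ^ a) ≤
      ENNReal.ofReal (1 / (r - 1)) * ENNReal.ofReal T := by
    have h2 : ∀ t ∈ Ioi T, min (m t) (m t ^ a) ≤ ENNReal.ofReal (T ^ r * t ^ (-r)) := by
      intro t ht
      refine (min_le_left _ _).trans ((hm t (hTpos.trans ht)).trans (le_of_eq ?_))
      rw [hNT, ← ENNReal.ofReal_mul (by positivity)]
    refine (setLIntegral_mono' measurableSet_Ioi h2).trans (le_of_eq ?_)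
    have hint : IntegrableOn (fun s : ℝ => T ^ r * s ^ (-r)) (Ioi T) :=
      (integrableOn_Ioi_rpow_of_lt (by linarith) hTpos).const_mul _
    rw [← ofReal_integral_eq_lintegral_ofReal hint ((ae_restrict_iff' measurableSet_Ioi).2
      (Eventually.of_forall fun s hs => mul_nonneg (by positivity)
        (Real.rpow_nonneg (hTpos.trans hs).le _))),
      integral_const_mul, integral_Ioi_rpow_of_lt (by linarith) hTpos,
      ← ENNReal.ofReal_mul (by apply div_nonneg <;> linarith)]
    congr 1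
    rw [show -T ^ (-r + 1) / (-r + 1) = T ^ (-r + 1) / (r - 1) by
      rw [neg_div, ← div_neg]; congr 1; ring]
    rw [mul_div_assoc', ← Real.rpow_add hTpos]
    rw [show r + (-r + 1) = 1 by ring, Real.rpow_one]
    ring
  calc (∫⁻ t in Ioc (0 : ℝ) T, min (m t) (m t ^ a)) + ∫⁻ t in Ioi T, min (m t) (m t ^ a)
      ≤ ENNReal.ofReal (1 / (1 - r * a)) * ENNReal.ofReal T +
        ENNReal.ofReal (1 / (r - 1)) * ENNReal.ofReal T := add_le_add b1 b2
    _ ≤ (ENNReal.ofReal (1 / (1 - r * a)) + ENNReal.ofReal (1 / (r - 1)) + 1) *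
        ENNReal.ofReal T := by
        rw [← add_mul]
        exact mul_le_mul_left le_self_add _
    _ = _ := by
        rw [ENNReal.coe_add, ENNReal.coe_add]
        rfl


/-- The superlevel sets `{Φ > t}` have additive structure: for some set `B` (for instance
`{Φ > t}` itself, or the set of its negatives) of at least comparable measure the sum set
`{Φ > t} + B` is of comparable measure. -/
def Structured (A : ℝ≥0) (Φ : V → ℝ≥0) : Prop :=
  ∀ t : ℝ≥0, ∃ B : Set V, volume {x | t < Φ x} ≤ A * volume B ∧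
    volume ({x | t < Φ x} + B) ≤ A * volume {x | t < Φ x}

theorem TwoPoint.strong {n : ℝ} (hn : n = finrank ℝ V) (hd : 2 ≤ finrank ℝ V) {q : ℝ}
    (hq : 2 * n / (n - 1) < q) : ∃ C : ℝ≥0, 0 < C ∧ ∀ {F : V → ℂ} {K : ℝ≥0∞}, Measurable F →
      TwoPoint F K → ∀ {L : ℝ≥0∞}, (∀ x, ‖F x‖ₑ ≤ L) → ∀ {A : ℝ≥0} {Φ : V → ℝ≥0}, Measurable Φ →
      Structured A Φ →
      ∫⁻ x, ‖F x‖ₑ * Φ x ≤ C * (L + (K * (A : ℝ≥0∞) ^ ((2 * n + 1) / n)) ^ (1 / 2 : ℝ)) *
        (∫⁻ x, (Φ x : ℝ≥0∞) ^ (q / (q - 1))) ^ (1 - 1 / q) := by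
  have hn2 : (2 : ℝ) ≤ n := by rw [hn]; exact_mod_cast hd
  obtain ⟨C, hC, hmin⟩ := min_int hn2 hq
  have hn1 : 0 < n - 1 := by linarith
  rw [div_lt_iff₀ hn1] at hq
  have hq2 : 2 < q := by nlinarith
  set r : ℝ := q / (q - 1) with hr
  have hr0 : 0 < r := by
    rw [hr]
    apply div_pos <;> linarith
  refine ⟨C, hC, fun {F K} hF hT {L} hL {A Φ} hΦ hS => ?_⟩
  set N : ℝ≥0∞ := ∫⁻ x, (Φ x : ℝ≥0∞) ^ r with hN
  rcases eq_or_ne N ∞ with hN1 | hN1
  · -- the right side is infinite unless the constants vanish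
    rcases eq_or_ne L 0 with hL0 | hL0
    · have : ∀ x, ‖F x‖ₑ * (Φ x : ℝ≥0∞) = 0 := by
        intro x
        have := hL x
        rw [hL0, nonpos_iff_eq_zero] at this
        rw [this, zero_mul]
      simp_rw [this, lintegral_zero]
      exact zero_le
    · have h1 : 0 < 1 - 1 / q := by
        rw [sub_pos, div_lt_one (by linarith)]
        linarith
      rw [hN1, ENNReal.top_rpow_of_pos h1, ENNReal.mul_top]
      · exact le_top
      · refine mul_ne_zero (by exact_mod_cast hC.ne') ?_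
        intro h
        rw [add_eq_zero] at h
        exact hL0 h.1
  -- measures of the superlevel sets
  set m : ℝ → ℝ≥0∞ := fun t => volume {x | t < (Φ x : ℝ)} with hm
  set R : ℝ≥0∞ := L + (K * (A : ℝ≥0∞) ^ ((2 * n + 1) / n)) ^ (1 / 2 : ℝ) with hR
  have hcheb : ∀ t : ℝ, 0 < t → m t ≤ N * ENNReal.ofReal (t ^ (-r)) := by
    intro s hs
    have hs0 : ENNReal.ofReal (s ^ r) ≠ 0 := by
      rw [Ne, ENNReal.ofReal_eq_zero, not_le]
      positivity
    have h3 : ENNReal.ofReal (s ^ r) * volume {a : V | ENNReal.ofReal (s ^ r) ≤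
        (Φ a : ℝ≥0∞) ^ r} ≤ N :=
      mul_meas_ge_le_lintegral₀ (hΦ.coe_nnreal_ennreal.pow_const r).aemeasurable _
    have h4 : {a : V | s < (Φ a : ℝ)} ⊆ {a : V | ENNReal.ofReal (s ^ r) ≤
        (Φ a : ℝ≥0∞) ^ r} := by
      intro a ha
      simp only [mem_ofPred_eq] at ha ⊢
      rw [← ENNReal.ofReal_rpow_of_pos hs]
      refine ENNReal.rpow_le_rpow ?_ hr0.le
      rw [← ENNReal.ofReal_coe_nnreal]
      exact ENNReal.ofReal_le_ofReal ha.le
    have h5 : ENNReal.ofReal (s ^ (-r)) = (ENNReal.ofReal (s ^ r))⁻¹ := by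
      rw [← ENNReal.ofReal_inv_of_pos (by positivity), Real.rpow_neg hs.le]
    rw [h5, ← div_eq_mul_inv, ENNReal.le_div_iff_mul_le (Or.inl hs0)
      (Or.inl ENNReal.ofReal_ne_top), mul_comm]
    exact (mul_le_mul_right (measure_mono h4) _).trans h3
  have hmfin : ∀ t : ℝ, 0 < t → m t ≠ ∞ := by
    intro t ht
    exact ne_top_of_le_ne_top (ENNReal.mul_ne_top hN1 ENNReal.ofReal_ne_top) (hcheb t ht)
  -- the integral over a superlevel set
  have hlev : ∀ t : ℝ, 0 < t → ∫⁻ x in {x | t < (Φ x : ℝ)}, ‖F x‖ₑ ≤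
      R * min (m t) (m t ^ ((n + 1) / (2 * n))) := by
    intro t ht
    set Et : Set V := {x | t < (Φ x : ℝ)} with hEt
    have hEm : MeasurableSet Et := measurableSet_lt measurable_const hΦ.coe_nnreal_real
    have hset : {x | t.toNNReal < Φ x} = Et := by
      ext x
      simp only [mem_ofPred_eq, hEt]
      rw [Real.toNNReal_lt_iff_lt_coe ht.le]
    have hmm2 : R * min (m t) (m t ^ ((n + 1) / (2 * n))) =
        min (R * m t) (R * m t ^ ((n + 1) / (2 * n))) := by
      rcases le_total (m t) (m t ^ ((n + 1) / (2 * n))) with h | h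
      · rw [min_eq_left h, min_eq_left (mul_le_mul_right h _)]
      · rw [min_eq_right h, min_eq_right (mul_le_mul_right h _)]
    rw [hmm2]
    refine le_min ?_ ?_
    · calc ∫⁻ x in Et, ‖F x‖ₑ ≤ ∫⁻ _ in Et, L := lintegral_mono fun x => hL x
        _ = L * m t := by rw [setLIntegral_const]
        _ ≤ R * m t := mul_le_mul_left le_self_add _
    · obtain ⟨B, hB1, hB2⟩ := hS t.toNNReal
      rw [hset] at hB1 hB2
      have hmt : volume Et = m t := rfl
      rw [hmt] at hB1 hB2
      rcases eq_or_ne (m t) 0 with h0 | h0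
      · rw [Measure.restrict_eq_zero.2 h0, lintegral_zero_measure]
        exact zero_le
      have hfin := hmfin t ht
      set Iₜ : ℝ≥0∞ := ∫⁻ x in Et, ‖F x‖ₑ ^ 2 with hI
      have k1 := hT.sumset hF hd hEm B
      rw [← hI, ← hn] at k1
      have k2 : m t * Iₜ ≤ m t * (K * (A : ℝ≥0∞) ^ ((2 * n + 1) / n) * m t ^ (1 / n)) := by
        calc m t * Iₜ ≤ (A * volume B) * Iₜ := mul_le_mul_left hB1 _
          _ = A * (volume B * Iₜ) := mul_assoc _ _ _
          _ ≤ A * (K * (volume (Et + B)) ^ ((n + 1) / n)) := mul_le_mul_right k1 _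
          _ ≤ A * (K * (A * m t) ^ ((n + 1) / n)) :=
            mul_le_mul_right (mul_le_mul_right (ENNReal.rpow_le_rpow hB2 (by positivity)) _) _
          _ = (m t * m t ^ (1 / n)) * (K * ((A : ℝ≥0∞) * A ^ ((n + 1) / n))) := by
            rw [ENNReal.mul_rpow_of_nonneg _ _ (by positivity)]
            have : m t ^ ((n + 1) / n) = m t * m t ^ (1 / n) := by
              conv_rhs => rw [← ENNReal.rpow_one (m t), ← ENNReal.rpow_mul]
              rw [← ENNReal.rpow_add_of_nonneg _ _ zero_le_one (by positivity)]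
              congr 1
              field_simp
              try ring
            rw [this]
            ring
          _ = _ := by
            have : (A : ℝ≥0∞) * A ^ ((n + 1) / n) = (A : ℝ≥0∞) ^ ((2 * n + 1) / n) := by
              conv_lhs => rw [← ENNReal.rpow_one (A : ℝ≥0∞), ← ENNReal.rpow_mul]
              rw [← ENNReal.rpow_add_of_nonneg _ _ zero_le_one (by positivity)]
              congr 1
              field_simp
              ring
            rw [this]
            ring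
      have k3 : Iₜ ≤ K * (A : ℝ≥0∞) ^ ((2 * n + 1) / n) * m t ^ (1 / n) :=
        (ENNReal.mul_le_mul_iff_right h0 hfin).1 k2
      -- Cauchy-Schwarz
      have hcs : ∫⁻ x in Et, ‖F x‖ₑ ≤ Iₜ ^ (1 / 2 : ℝ) * m t ^ (1 / 2 : ℝ) := by
        have := ENNReal.lintegral_mul_le_Lp_mul_Lq (volume.restrict Et)
          (Real.HolderConjugate.two_two) (f := fun x => ‖F x‖ₑ) (g := fun _ => 1)
          hF.enorm.aemeasurable aemeasurable_const
        simp only [Pi.mul_apply, mul_one, ENNReal.one_rpow, lintegral_const, one_mul,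
          Measure.restrict_apply_univ] at this
        simpa [hI] using this
      refine hcs.trans ?_
      calc Iₜ ^ (1 / 2 : ℝ) * m t ^ (1 / 2 : ℝ)
          ≤ (K * (A : ℝ≥0∞) ^ ((2 * n + 1) / n) * m t ^ (1 / n)) ^ (1 / 2 : ℝ) *
            m t ^ (1 / 2 : ℝ) := mul_le_mul_left (ENNReal.rpow_le_rpow k3 (by norm_num)) _
        _ = (K * (A : ℝ≥0∞) ^ ((2 * n + 1) / n)) ^ (1 / 2 : ℝ) * m t ^ ((n + 1) / (2 * n)) := by
          rw [ENNReal.mul_rpow_of_nonneg _ _ (by norm_num), mul_assoc, ← ENNReal.rpow_mul,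
            ← ENNReal.rpow_add_of_nonneg _ _ (by positivity) (by norm_num)]
          congr 2
          field_simp
          try ring
        _ ≤ R * m t ^ ((n + 1) / (2 * n)) := mul_le_mul_left le_add_self _
  -- layer cake
  have hcake : ∫⁻ x, ‖F x‖ₑ * Φ x = ∫⁻ t in Ioi (0 : ℝ), ∫⁻ x in {x | t < (Φ x : ℝ)}, ‖F x‖ₑ := by
    have e1 : ∫⁻ x, ‖F x‖ₑ * Φ x = ∫⁻ x, ENNReal.ofReal (Φ x : ℝ)
        ∂((volume : Measure V).withDensity fun x => ‖F x‖ₑ) := by
      rw [lintegral_withDensity_eq_lintegral_mul _ hF.enorm hΦ.coe_nnreal_real.ennreal_ofReal]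
      refine lintegral_congr fun x => ?_
      simp only [Pi.mul_apply]
      rw [ENNReal.ofReal_coe_nnreal]
    rw [e1, lintegral_eq_lintegral_meas_lt _ (Eventually.of_forall fun x => NNReal.coe_nonneg _)
      hΦ.coe_nnreal_real.aemeasurable]
    refine lintegral_congr fun t => ?_
    rw [withDensity_apply _ (measurableSet_lt measurable_const hΦ.coe_nnreal_real)]
  rw [hcake]
  calc ∫⁻ t in Ioi (0 : ℝ), ∫⁻ x in {x | t < (Φ x : ℝ)}, ‖F x‖ₑ
      ≤ ∫⁻ t in Ioi (0 : ℝ), R * min (m t) (m t ^ ((n + 1) / (2 * n))) :=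
        setLIntegral_mono' measurableSet_Ioi fun t ht => hlev t ht
    _ ≤ R * ∫⁻ t in Ioi (0 : ℝ), min (m t) (m t ^ ((n + 1) / (2 * n))) := by
        have hmm : Measurable m := by
          have : Antitone m := fun s t hst => measure_mono fun x hx => lt_of_le_of_lt hst hx
          exact this.measurable
        rw [lintegral_const_mul _ (hmm.min (hmm.pow_const _))]
    _ ≤ R * (C * N ^ (1 - 1 / q)) := mul_le_mul_right (hmin m N hcheb) _
    _ = _ := by ring

end Pool.Agent.Q97.RS
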