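import Mathlib
import Pool.Agent.Q97.RS.Two
import Pool.Agent.Q97.RS.CG
set_option autoImplicit false
set_option linter.unusedSectionVars false

/-! The majorant principle on the paraboloid. -/

namespace Pool.Agent.Q97.RS

open MeasureTheory Set Metric Filter Topology
open scoped ENNReal NNReal RealInnerProductSpace

section general

variable {V : Type*} [NormedAddCommGroup V] [InnerProductSpace ℝ V] [FiniteDimensional ℝ V]
  [MeasurableSpace V] [BorelSpace V]

/-- the constant of the majorant principle -/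
noncomputable def CM (q : ℝ) : ℝ := 2 * ((1 + (1 - 2 / q)) / (1 - (1 - 2 / q))) * (q / (q - 2))

theorem CM_pos {q : ℝ} (hq : 2 < q) : 0 < CM q := by
  unfold CM
  have h1 : 2 / q < 1 := by rw [div_lt_one (by linarith)]; exact hq
  have h2 : 0 < 2 / q := by apply div_pos <;> linarith
  have h3 : 0 < q - 2 := by linarith
  have h4 : 0 < 1 + (1 - 2 / q) := by linarith
  have h5 : 0 < 1 - (1 - 2 / q) := by linarith
  have h6 : 0 < q := by linarith
  positivity

/-- **The majorant principle** for the Fourier transforms of bounded densities. -/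
theorem majorant {q : ℝ} (hq : 2 < q) (μ : Measure V) [IsFiniteMeasure μ] {L : ℝ} (hL : 0 < L)
    (hw : ∀ s : ℝ, 0 < s → (volume : Measure V) {z | s < ‖Fh μ (fun _ => 1) z‖} ≤
      ENNReal.ofReal ((L / s) ^ q))
    {g : V → ℂ} (hg : Measurable g) {M : ℝ} (hM : ∀ x, ‖g x‖ ≤ M) :
    TP (volume : Measure V) q (Fh μ g) (ENNReal.ofReal (M ^ 2 * (CM q * L ^ 2))) := by
  intro w Φ hΦ
  refine (avg_lint μ hg hM w Φ hΦ).trans ?_
  have h1 : 2 / q < 1 := by rw [div_lt_one (by linarith)]; exact hq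
  have h2 : 0 < 2 / q := by apply div_pos <;> linarith
  have h3 : 0 < q - 2 := by linarith
  have h4 : 0 < 1 + (1 - 2 / q) := by linarith
  have h5 : 0 < 1 - (1 - 2 / q) := by linarith
  have h6 : 0 < q := by linarith
  set K : V → ℂ := Fh μ (fun _ => 1) with hK
  have hKm : Measurable K := (Fh_meas μ measurable_const).measurable
  have hsymK : ∀ z, ‖K (-z)‖ = ‖K z‖ := by
    intro z
    have : K (-z) = (starRingEnd ℂ) (K z) := by
      rw [hK]
      unfold Fh
      rw [← integral_conj]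
      refine integral_congr_ae (Eventually.of_forall fun x => ?_)
      simp only [mul_one, ch_conj]
    rw [this, RCLike.norm_conj]
  have hkm : Measurable (Function.uncurry fun x y : V => ‖K (x - y)‖ₑ ^ 2) :=
    (hKm.comp (measurable_fst.sub measurable_snd)).enorm.pow_const 2
  have hB : Bath (volume : Measure V) (fun x y : V => ‖K (x - y)‖ₑ ^ 2) (1 - 2 / q)
      (ENNReal.ofReal (q / (q - 2) * L ^ 2)) := by
    intro E hE y
    refine weak_sq hq (hKm.comp (measurable_id.sub_const y)) hL (fun s hs => ?_)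
    refine le_trans (le_of_eq ?_) (hw s hs)
    have h7 := measure_preimage_add_right (volume : Measure V) (-y) {z | s < ‖K z‖}
    simp only [← sub_eq_add_neg] at h7
    exact h7
  have h8 := hls_gen (μ := (volume : Measure V)) (β := 1 - 2 / q) (by linarith) (by linarith)
    hkm (fun x y => by
      rw [← ofReal_norm, ← ofReal_norm, ← hsymK, neg_sub]) hB hΦ
  have e1 : 2 / (1 + (1 - 2 / q)) = q / (q - 1) := by
    have : q - 1 ≠ 0 := by linarith
    rw [div_eq_div_iff h4.ne' this]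
    field_simp
    ring
  rw [e1, show 1 + (1 - 2 / q) = 2 - 2 / q by ring] at h8
  refine (mul_le_mul_right h8 _).trans (le_of_eq ?_)
  rw [← mul_assoc]
  congr 1
  rw [← ENNReal.ofReal_mul (by
    apply mul_nonneg zero_le_two
    apply div_nonneg <;> linarith), ← ENNReal.ofReal_mul (sq_nonneg M)]
  congr 1
  unfold CM
  rw [show 1 + (1 - 2 / q) = 2 - 2 / q by ring]
  ring

end general

/-! ### The paraboloid -/

/-- Euclidean space -/
abbrev Eu (m : ℕ) := EuclideanSpace ℝ (Fin m)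

/-- the extension operator of the paraboloid -/
noncomputable def pext {m : ℕ} (f : Eu m → ℂ) (z : Eu m × ℝ) : ℂ :=
  ∫ ξ : Eu m, Complex.exp ((2 * Real.pi * (⟪ξ, z.1⟫ + z.2 * ‖ξ‖ ^ 2) : ℝ) * Complex.I) * f ξ

variable {m : ℕ}

/-- minus the lift to the paraboloid -/
noncomputable def lift (ξ : Eu m) : WithLp 2 (Eu m × ℝ) := WithLp.toLp 2 (-ξ, -‖ξ‖ ^ 2)

theorem lift_meas : Measurable (lift : Eu m → WithLp 2 (Eu m × ℝ)) := by
  unfold lift
  have : Continuous fun ξ : Eu m => WithLp.toLp 2 ((-ξ, -‖ξ‖ ^ 2) : Eu m × ℝ) :=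
    (WithLp.prod_continuous_toLp 2 (Eu m) ℝ).comp (by fun_prop)
  exact this.measurable

theorem ch_lift (ξ : Eu m) (z : WithLp 2 (Eu m × ℝ)) :
    ch (lift ξ) z = Complex.exp ((2 * Real.pi * (⟪ξ, (WithLp.ofLp z).1⟫ +
      (WithLp.ofLp z).2 * ‖ξ‖ ^ 2) : ℝ) * Complex.I) := by
  unfold ch lift
  congr 1
  rw [WithLp.prod_inner_apply]
  simp only [inner_neg_left]
  have : ⟪‖ξ‖ ^ 2, (WithLp.ofLp z).2⟫ = (WithLp.ofLp z).2 * ‖ξ‖ ^ 2 := rfl
  rw [this]
  push_cast
  ring

/-- the measure `G dξ` on minus the paraboloid -/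
noncomputable def mG (G : Eu m → ℝ≥0) : Measure (WithLp 2 (Eu m × ℝ)) :=
  ((volume : Measure (Eu m)).withDensity fun ξ => (G ξ : ℝ≥0∞)).map lift

theorem Fh_mG {G : Eu m → ℝ≥0} (hG : Measurable G) {g : WithLp 2 (Eu m × ℝ) → ℂ}
    (hg : Measurable g) (z : WithLp 2 (Eu m × ℝ)) :
    Fh (mG G) g z = pext (fun ξ => (G ξ : ℝ) * g (lift ξ)) (WithLp.ofLp z) := by
  unfold Fh mG
  have hm : AEStronglyMeasurable (fun x => ch x z * g x)
      (Measure.map lift ((volume : Measure (Eu m)).withDensity fun ξ => (G ξ : ℝ≥0∞))) :=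
    ((ch_cont' z).measurable.mul hg).aestronglyMeasurable
  rw [integral_map lift_meas.aemeasurable hm, integral_withDensity_eq_integral_smul hG]
  unfold pext
  refine integral_congr_ae (Eventually.of_forall fun ξ => ?_)
  simp only
  rw [ch_lift, NNReal.smul_def, Complex.real_smul]
  ring

/-- **The majorant principle on the paraboloid.** -/
theorem par_majorant {q : ℝ} (hq : 2 < q) {G : Eu m → ℝ≥0} (hG : Measurable G)
    (hGi : ∫⁻ ξ, (G ξ : ℝ≥0∞) ≠ ∞) {L : ℝ} (hL : 0 < L)
    (hw : ∀ s : ℝ, 0 < s → volume {z : Eu m × ℝ | s < ‖pext (fun ξ => ((G ξ : ℝ) : ℂ)) z‖} ≤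
      ENNReal.ofReal ((L / s) ^ q))
    {f : Eu m → ℂ} (hf : AEStronglyMeasurable f volume) (hfG : ∀ᵐ ξ, ‖f ξ‖ ≤ G ξ) :
    Measurable (pext f) ∧
    TP (volume : Measure (Eu m × ℝ)) q (pext f) (ENNReal.ofReal (CM q * L ^ 2)) := by
  obtain ⟨f0, hf0, hff⟩ := hf
  have : IsFiniteMeasure ((volume : Measure (Eu m)).withDensity fun ξ => (G ξ : ℝ≥0∞)) :=
    isFiniteMeasure_withDensity hGi
  have hfin : IsFiniteMeasure (mG G) := by unfold mG; infer_instance
  set S : Set (Eu m) := {ξ | ‖f0 ξ‖ ≤ G ξ} with hS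
  have hSm : MeasurableSet S := measurableSet_le hf0.measurable.norm hG.coe_nnreal_real
  set h : Eu m → ℂ := S.indicator fun ξ => f0 ξ / (G ξ : ℝ) with hh
  have hhm : Measurable h := (hf0.measurable.div
    (Complex.measurable_ofReal.comp hG.coe_nnreal_real)).indicator hSm
  have hh1 : ∀ ξ, ‖h ξ‖ ≤ 1 := by
    intro ξ
    by_cases hξ : ξ ∈ S
    · rw [hh, indicator_of_mem hξ, norm_div, Complex.norm_real, Real.norm_eq_abs,
        abs_of_nonneg (NNReal.coe_nonneg _)]
      exact div_le_one_of_le₀ hξ (NNReal.coe_nonneg _)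
    · rw [hh, indicator_of_notMem hξ]
      simp
  set g : WithLp 2 (Eu m × ℝ) → ℂ := fun y => h (-(WithLp.ofLp y).1) with hgdef
  have hofLp : Measurable fun y : WithLp 2 (Eu m × ℝ) => (WithLp.ofLp y : Eu m × ℝ) :=
    (WithLp.prod_continuous_ofLp 2 (Eu m) ℝ).measurable
  have hgm : Measurable g := hhm.comp (measurable_fst.comp hofLp).neg
  have hg1 : ∀ y, ‖g y‖ ≤ 1 := fun y => hh1 _
  have hgl : ∀ ξ, g (lift ξ) = h ξ := by
    intro ξ
    simp only [hgdef, lift, neg_neg]
  have e1 : ∀ z : WithLp 2 (Eu m × ℝ), Fh (mG G) g z = pext f (WithLp.ofLp z) := by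
    intro z
    rw [Fh_mG hG hgm]
    unfold pext
    refine integral_congr_ae ?_
    filter_upwards [hff, hfG] with ξ h1 h2
    rw [hgl, h1]
    have h3 : ξ ∈ S := by
      change ‖f0 ξ‖ ≤ G ξ
      rw [← h1]; exact h2
    rw [hh, indicator_of_mem h3]
    rcases eq_or_ne (G ξ) 0 with h4 | h4
    · have : f0 ξ = 0 := by
        have h5 : ‖f0 ξ‖ ≤ G ξ := h3
        rw [h4] at h5
        exact norm_le_zero_iff.1 (by simpa using h5)
      rw [this, h4]
      simp
    · have : ((G ξ : ℝ) : ℂ) ≠ 0 := by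
        exact_mod_cast h4
      field_simp
  have e2 : ∀ z : WithLp 2 (Eu m × ℝ), Fh (mG G) (fun _ => 1) z =
      pext (fun ξ => ((G ξ : ℝ) : ℂ)) (WithLp.ofLp z) := by
    intro z
    rw [Fh_mG hG measurable_const]
    simp only [mul_one]
  have hmp : MeasurePreserving (fun y : WithLp 2 (Eu m × ℝ) => (WithLp.ofLp y : Eu m × ℝ))
      volume volume := WithLp.volume_preserving_ofLp _ _
  have hmt : Measurable fun y : Eu m × ℝ => (WithLp.toLp 2 y : WithLp 2 (Eu m × ℝ)) :=
    (WithLp.prod_continuous_toLp 2 (Eu m) ℝ).measurable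
  have hmeas : Measurable (pext f) := by
    have h1 : pext f = fun z : Eu m × ℝ => Fh (mG G) g (WithLp.toLp 2 z) := by
      funext z
      rw [e1]
    rw [h1]
    exact (Fh_meas (mG G) hgm).measurable.comp hmt
  have hmeasG : Measurable (pext fun ξ => ((G ξ : ℝ) : ℂ)) := by
    have h1 : pext (fun ξ => ((G ξ : ℝ) : ℂ)) =
        fun z : Eu m × ℝ => Fh (mG G) (fun _ => 1) (WithLp.toLp 2 z) := by
      funext z
      rw [e2]
    rw [h1]
    exact (Fh_meas (mG G) measurable_const).measurable.comp hmt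
  refine ⟨hmeas, ?_⟩
  have hw' : ∀ s : ℝ, 0 < s → (volume : Measure (WithLp 2 (Eu m × ℝ)))
      {z | s < ‖Fh (mG G) (fun _ => 1) z‖} ≤ ENNReal.ofReal ((L / s) ^ q) := by
    intro s hs
    refine le_trans (le_of_eq ?_) (hw s hs)
    rw [← hmp.measure_preimage
      (measurableSet_lt measurable_const hmeasG.norm).nullMeasurableSet]
    congr 1
    ext z
    simp only [mem_ofPred_eq, mem_preimage, e2]
  have hTP := majorant hq (mG G) hL hw' hgm hg1
  intro w Φ hΦ
  have h1 := hTP (WithLp.toLp 2 w) (fun y => Φ (WithLp.ofLp y)) (hΦ.comp hofLp)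
  have hF2 : Measurable fun v => ‖pext f v‖ₑ ^ 2 := hmeas.enorm.pow_const 2
  have hΦe : Measurable fun x => (Φ x : ℝ≥0∞) := hΦ.coe_nnreal_ennreal
  have mq : Measurable fun p : (Eu m × ℝ) × (Eu m × ℝ) =>
      ‖pext f (w + p.1 - p.2)‖ₑ ^ 2 * ((Φ p.1 : ℝ≥0∞) * Φ p.2) :=
    (hF2.comp ((measurable_const.add measurable_fst).sub measurable_snd)).mul
      ((hΦe.comp measurable_fst).mul (hΦe.comp measurable_snd))
  have hmp2 := hmp.prod hmp
  have h2 := hmp2.lintegral_comp mq
  have h3 := hmp.lintegral_comp (hΦe.pow_const (q / (q - 1)))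
  rw [← h3, ← h2]
  rw [one_pow, one_mul] at h1
  refine le_trans (le_of_eq ?_) h1
  refine lintegral_congr fun p => ?_
  simp only [Prod.map_fst, Prod.map_snd, e1]
  rfl

end Pool.Agent.Q97.RS
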