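import Mathlib
import Pool.Agent.Q97.RS.Par
import Pool.Agent.Q85.HL.G
set_option autoImplicit false
set_option linter.unusedSectionVars false

/-! The majorant principle on the paraboloid in `ℝ³`, in the normalization of `Q85.HL`. -/

namespace Pool.Agent.Q97.RS

open MeasureTheory Set Metric Filter Topology
open scoped ENNReal NNReal RealInnerProductSpace
open Pool.Agent.Q85.HL (EP)

/-- transfer of the two-point inequality -/
theorem TP.transfer {V G : Type*} [AddCommGroup V] [MeasurableSpace V] [AddCommGroup G]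
    [MeasurableSpace G] [MeasurableAdd₂ G] [MeasurableSub₂ G] {μ : Measure V} {ν : Measure G}
    [SFinite μ] [SFinite ν] {e : V → G} (e' : G → V)
    (hadd : ∀ x y z, e (x + y - z) = e x + e y - e z) (hee : ∀ g, e (e' g) = g)
    (hmp : MeasurePreserving e μ ν) {F : G → ℂ} (hF : Measurable F) {q : ℝ} {K : ℝ≥0∞}
    (h : TP μ q (fun x => F (e x)) K) : TP ν q F K := by
  intro w Φ hΦ
  have h1 := h (e' w) (fun y => Φ (e y)) (hΦ.comp hmp.measurable)
  have hF2 : Measurable fun v => ‖F v‖ₑ ^ 2 := hF.enorm.pow_const 2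
  have hΦe : Measurable fun x => (Φ x : ℝ≥0∞) := hΦ.coe_nnreal_ennreal
  have mq : Measurable fun p : G × G =>
      ‖F (w + p.1 - p.2)‖ₑ ^ 2 * ((Φ p.1 : ℝ≥0∞) * Φ p.2) :=
    (hF2.comp ((measurable_const.add measurable_fst).sub measurable_snd)).mul
      ((hΦe.comp measurable_fst).mul (hΦe.comp measurable_snd))
  have hmp2 := hmp.prod hmp
  have h2 := hmp2.lintegral_comp mq
  have h3 := hmp.lintegral_comp (hΦe.pow_const (q / (q - 1)))
  rw [← h3, ← h2]
  refine le_trans (le_of_eq ?_) h1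
  refine lintegral_congr fun p => ?_
  simp only [Prod.map_fst, Prod.map_snd, hadd, hee]

/-- the space `ℝ³` -/
abbrev V3 := WithLp 2 (WithLp 2 (ℝ × ℝ) × ℝ)

/-- the lift to the paraboloid, scaled -/
noncomputable def lift3 (x : ℝ × ℝ) : V3 :=
  WithLp.toLp 2 (WithLp.toLp 2 ((2 * Real.pi)⁻¹ * x.1, (2 * Real.pi)⁻¹ * x.2),
    (2 * Real.pi)⁻¹ * (x.1 ^ 2 + x.2 ^ 2))

theorem lift3_meas : Measurable lift3 := by
  unfold lift3
  have h1 : Continuous fun x : ℝ × ℝ =>
      (WithLp.toLp 2 ((2 * Real.pi)⁻¹ * x.1, (2 * Real.pi)⁻¹ * x.2) : WithLp 2 (ℝ × ℝ)) :=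
    (WithLp.prod_continuous_toLp 2 ℝ ℝ).comp (by fun_prop)
  have h2 : Continuous fun x : ℝ × ℝ => (2 * Real.pi)⁻¹ * (x.1 ^ 2 + x.2 ^ 2) := by fun_prop
  exact ((WithLp.prod_continuous_toLp 2 (WithLp 2 (ℝ × ℝ)) ℝ).comp (h1.prodMk h2)).measurable

/-- the identification -/
noncomputable def e3 (z : V3) : (ℝ × ℝ) × ℝ := (WithLp.ofLp (WithLp.ofLp z).1, (WithLp.ofLp z).2)

/-- the inverse identification -/
noncomputable def e3' (z : (ℝ × ℝ) × ℝ) : V3 := WithLp.toLp 2 (WithLp.toLp 2 z.1, z.2)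

theorem e3_mp : MeasurePreserving e3 volume volume := by
  have h1 : MeasurePreserving (fun y : V3 => (WithLp.ofLp y : WithLp 2 (ℝ × ℝ) × ℝ))
      volume volume := WithLp.volume_preserving_ofLp _ _
  have h2 : MeasurePreserving (fun y : WithLp 2 (ℝ × ℝ) => (WithLp.ofLp y : ℝ × ℝ))
      volume volume := WithLp.volume_preserving_ofLp _ _
  exact (h2.prod (MeasurePreserving.id (volume : Measure ℝ))).comp h1

theorem e3'_meas : Measurable e3' := by
  unfold e3'
  have h1 : Continuous fun z : (ℝ × ℝ) × ℝ => (WithLp.toLp 2 z.1 : WithLp 2 (ℝ × ℝ)) :=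
    (WithLp.prod_continuous_toLp 2 ℝ ℝ).comp continuous_fst
  exact ((WithLp.prod_continuous_toLp 2 (WithLp 2 (ℝ × ℝ)) ℝ).comp
    (h1.prodMk continuous_snd)).measurable

theorem ch_lift3 (x : ℝ × ℝ) (z : V3) :
    ch (lift3 x) z = Complex.exp (-(Complex.I * ((x.1 * (e3 z).1.1 + x.2 * (e3 z).1.2 +
      (x.1 ^ 2 + x.2 ^ 2) * (e3 z).2 : ℝ) : ℂ))) := by
  unfold ch lift3 e3
  congr 1
  rw [WithLp.prod_inner_apply, WithLp.prod_inner_apply]
  have a1 : ∀ u v : ℝ, ⟪u, v⟫ = v * u := fun u v => rfl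
  simp only [a1]
  have h : (2 * Real.pi : ℝ) ≠ 0 := by positivity
  have : 2 * Real.pi * ((WithLp.ofLp (WithLp.ofLp z).1).1 * ((2 * Real.pi)⁻¹ * x.1) +
      (WithLp.ofLp (WithLp.ofLp z).1).2 * ((2 * Real.pi)⁻¹ * x.2) +
      (WithLp.ofLp z).2 * ((2 * Real.pi)⁻¹ * (x.1 ^ 2 + x.2 ^ 2))) =
      x.1 * (WithLp.ofLp (WithLp.ofLp z).1).1 + x.2 * (WithLp.ofLp (WithLp.ofLp z).1).2 +
      (x.1 ^ 2 + x.2 ^ 2) * (WithLp.ofLp z).2 := by
    field_simp
  rw [this]
  ring

/-- the measure `g dx` on the paraboloid -/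
noncomputable def mG3 (g : ℝ × ℝ → ℝ≥0) : Measure V3 :=
  ((volume : Measure (ℝ × ℝ)).withDensity fun x => (g x : ℝ≥0∞)).map lift3

theorem Fh_mG3 {g : ℝ × ℝ → ℝ≥0} (hg : Measurable g) {h : V3 → ℂ} (hh : Measurable h) (z : V3) :
    Fh (mG3 g) h z = EP (fun x => (g x : ℝ) * h (lift3 x)) (e3 z) := by
  unfold Fh mG3
  have hm : AEStronglyMeasurable (fun x => ch x z * h x)
      (Measure.map lift3 ((volume : Measure (ℝ × ℝ)).withDensity fun x => (g x : ℝ≥0∞))) :=
    ((ch_cont' z).measurable.mul hh).aestronglyMeasurable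
  rw [integral_map lift3_meas.aemeasurable hm, integral_withDensity_eq_integral_smul hg]
  unfold EP Q85.HL.ph
  refine integral_congr_ae (Eventually.of_forall fun x => ?_)
  simp only
  rw [ch_lift3, NNReal.smul_def, Complex.real_smul]
  exact mul_left_comm _ _ _

/-- **The majorant principle on the paraboloid in `ℝ³`.** -/
theorem par3_majorant {q : ℝ} (hq : 2 < q) {g : ℝ × ℝ → ℝ≥0} (hg : Measurable g)
    (hgi : ∫⁻ x, (g x : ℝ≥0∞) ≠ ∞) {L : ℝ} (hL : 0 < L)
    (hw : ∀ s : ℝ, 0 < s → volume {z : (ℝ × ℝ) × ℝ | s < ‖EP (fun x => ((g x : ℝ) : ℂ)) z‖} ≤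
      ENNReal.ofReal ((L / s) ^ q))
    {f : ℝ × ℝ → ℂ} (hf : AEStronglyMeasurable f volume) (hfg : ∀ᵐ x, ‖f x‖ ≤ g x) :
    Measurable (EP f) ∧
    TP (volume : Measure ((ℝ × ℝ) × ℝ)) q (EP f) (ENNReal.ofReal (CM q * L ^ 2)) := by
  obtain ⟨f0, hf0, hff⟩ := hf
  have : IsFiniteMeasure ((volume : Measure (ℝ × ℝ)).withDensity fun x => (g x : ℝ≥0∞)) :=
    isFiniteMeasure_withDensity hgi
  have hfin : IsFiniteMeasure (mG3 g) := by unfold mG3; infer_instance
  set S : Set (ℝ × ℝ) := {x | ‖f0 x‖ ≤ g x} with hS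
  have hSm : MeasurableSet S := measurableSet_le hf0.measurable.norm hg.coe_nnreal_real
  set h : ℝ × ℝ → ℂ := S.indicator fun x => f0 x / (g x : ℝ) with hh
  have hhm : Measurable h := (hf0.measurable.div
    (Complex.measurable_ofReal.comp hg.coe_nnreal_real)).indicator hSm
  have hh1 : ∀ x, ‖h x‖ ≤ 1 := by
    intro x
    by_cases hx : x ∈ S
    · rw [hh, indicator_of_mem hx, norm_div, Complex.norm_real, Real.norm_eq_abs,
        abs_of_nonneg (NNReal.coe_nonneg _)]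
      exact div_le_one_of_le₀ hx (NNReal.coe_nonneg _)
    · rw [hh, indicator_of_notMem hx]
      simp
  set k : V3 → ℂ := fun y => h (2 * Real.pi * (e3 y).1.1, 2 * Real.pi * (e3 y).1.2) with hkdef
  have hkm : Measurable k := by
    refine hhm.comp ?_
    have h1 : Measurable e3 := e3_mp.measurable
    exact ((measurable_fst.comp (measurable_fst.comp h1)).const_mul _).prodMk
      ((measurable_snd.comp (measurable_fst.comp h1)).const_mul _)
  have hk1 : ∀ y, ‖k y‖ ≤ 1 := fun y => hh1 _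
  have h2pi : (2 * Real.pi : ℝ) ≠ 0 := by positivity
  have hkl : ∀ x, k (lift3 x) = h x := by
    intro x
    simp only [hkdef, lift3, e3]
    rw [mul_inv_cancel_left₀ h2pi, mul_inv_cancel_left₀ h2pi]
  have e1 : ∀ z : V3, Fh (mG3 g) k z = EP f (e3 z) := by
    intro z
    rw [Fh_mG3 hg hkm]
    unfold EP
    refine integral_congr_ae ?_
    filter_upwards [hff, hfg] with x h1 h2
    rw [hkl, h1]
    have h3 : x ∈ S := by
      change ‖f0 x‖ ≤ g x
      rw [← h1]; exact h2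
    rw [hh, indicator_of_mem h3]
    rcases eq_or_ne (g x) 0 with h4 | h4
    · have : f0 x = 0 := by
        have h5 : ‖f0 x‖ ≤ g x := h3
        rw [h4] at h5
        exact norm_le_zero_iff.1 (by simpa using h5)
      rw [this, h4]
      simp
    · have : ((g x : ℝ) : ℂ) ≠ 0 := by
        exact_mod_cast h4
      field_simp
  have e2 : ∀ z : V3, Fh (mG3 g) (fun _ => 1) z = EP (fun x => ((g x : ℝ) : ℂ)) (e3 z) := by
    intro z
    rw [Fh_mG3 hg measurable_const]
    simp only [mul_one]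
  have hee : ∀ z, e3 (e3' z) = z := fun z => rfl
  have hmeas : Measurable (EP f) := by
    have h1 : EP f = fun z => Fh (mG3 g) k (e3' z) := by
      funext z
      rw [e1, hee]
    rw [h1]
    exact (Fh_meas (mG3 g) hkm).measurable.comp e3'_meas
  have hmeasG : Measurable (EP fun x => ((g x : ℝ) : ℂ)) := by
    have h1 : EP (fun x => ((g x : ℝ) : ℂ)) = fun z => Fh (mG3 g) (fun _ => 1) (e3' z) := by
      funext z
      rw [e2, hee]
    rw [h1]
    exact (Fh_meas (mG3 g) measurable_const).measurable.comp e3'_meas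
  refine ⟨hmeas, ?_⟩
  have hw' : ∀ s : ℝ, 0 < s → (volume : Measure V3)
      {z | s < ‖Fh (mG3 g) (fun _ => 1) z‖} ≤ ENNReal.ofReal ((L / s) ^ q) := by
    intro s hs
    refine le_trans (le_of_eq ?_) (hw s hs)
    rw [← e3_mp.measure_preimage
      (measurableSet_lt measurable_const hmeasG.norm).nullMeasurableSet]
    congr 1
    ext z
    simp only [mem_ofPred_eq, mem_preimage, e2]
  have hTP := majorant hq (mG3 g) hL hw' hkm hk1
  rw [one_pow, one_mul] at hTP
  refine TP.transfer e3' (fun x y z => rfl) hee e3_mp hmeas ?_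
  have : (fun x => EP f (e3 x)) = Fh (mG3 g) k := by
    funext z
    rw [e1]
  rw [this]
  exact hTP

end Pool.Agent.Q97.RS
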